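import Mathlib
set_option autoImplicit false

/-! Substitutions, Hölder inequalities, and the estimate for the integrals over lines in the plane:
`∫_{|θ| ≤ 1} ∫ (∫ h(α - θ s, s) ds)³ dα dθ ≤ C_p ‖h‖_p³` for `3/2 < p < 3` and `h` supported in
the square `[-1,1]²`. -/

namespace Pool.Agent.N248.LQ

open MeasureTheory Set Metric
open scoped ENNReal

theorem lin (a b : ℝ) (ha : a ≠ 0) (f : ℝ → ℝ≥0∞) (hf : Measurable f) :
    ENNReal.ofReal |a| * ∫⁻ x, f (a * x + b) = ∫⁻ x, f x := by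
  have h1 : ∫⁻ x, f (a * x + b) = ∫⁻ x, f (x + b) ∂(Measure.map (a * ·) volume) := by
    rw [lintegral_map (by fun_prop) (measurable_const_mul a)]
  rw [h1, Real.map_volume_mul_left ha, lintegral_smul_measure, smul_eq_mul, ← mul_assoc,
    ← ENNReal.ofReal_mul (abs_nonneg a), abs_inv, mul_inv_cancel₀ (abs_ne_zero.2 ha),
    ENNReal.ofReal_one, one_mul]
  exact lintegral_add_right_eq_self f b

theorem shift (b : ℝ) (f : ℝ → ℝ≥0∞) : ∫⁻ x, f (x + b) = ∫⁻ x, f x :=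
  lintegral_add_right_eq_self f b

theorem fub {X : Type*} [MeasureSpace X] [SFinite (volume : Measure X)] (f : ℝ × X → ℝ≥0∞)
    (hf : Measurable f) : ∫⁻ z, f z = ∫⁻ x : ℝ, ∫⁻ y : X, f (x, y) := by
  rw [Measure.volume_eq_prod, lintegral_prod _ hf.aemeasurable]

theorem fub' (f : ℝ × ℝ → ℝ≥0∞)
    (hf : Measurable f) : ∫⁻ z, f z = ∫⁻ y : ℝ, ∫⁻ x : ℝ, f (x, y) := by
  rw [Measure.volume_eq_prod, lintegral_prod_symm _ hf.aemeasurable]

/-- the function `|r|^(-c)` is integrable near `0` for `c < 1` -/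
theorem pow_int (c : ℝ) (hc : c < 1) (M : ℝ) :
    ∫⁻ r in Icc (-M) M, ENNReal.ofReal (|r| ^ (-c)) ≠ ∞ := by
  have h0 : ∀ M : ℝ, IntegrableOn (fun r : ℝ => |r| ^ (-c)) (Icc (-M) M) := by
    intro M
    rcases lt_or_ge M 0 with hM | hM
    · rw [Icc_eq_empty (by linarith)]
      exact integrableOn_empty
    have h1 : IntegrableOn (fun r : ℝ => |r| ^ (-c)) (Ioc 0 M) := by
      have h := (intervalIntegral.intervalIntegrable_rpow' (a := 0) (b := M) (r := -c)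
        (by linarith))
      rw [intervalIntegrable_iff_integrableOn_Ioc_of_le hM] at h
      refine h.congr_fun (fun r hr => ?_) measurableSet_Ioc
      simp only
      rw [abs_of_pos hr.1]
    have h2 : IntegrableOn (fun r : ℝ => |r| ^ (-c)) (Ico (-M) 0) := by
      have h := (IntegrableOn.comp_neg (f := fun r : ℝ => |r| ^ (-c)) h1)
      simpa using h
    have h3 : Icc (-M) M ⊆ Ico (-M) 0 ∪ ({0} ∪ Ioc 0 M) := by
      intro r hr
      rcases lt_trichotomy r 0 with h | h | h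
      · exact Or.inl ⟨hr.1, h⟩
      · exact Or.inr (Or.inl h)
      · exact Or.inr (Or.inr ⟨h, hr.2⟩)
    refine IntegrableOn.mono_set (h2.union (IntegrableOn.union ?_ h1)) h3
    exact integrableOn_singleton (by simp) (by rw [Real.volume_singleton]; exact ENNReal.zero_lt_top)
  exact (h0 M).lintegral_lt_top.ne

/-- Hölder for three powers -/
theorem three {X : Type*} [MeasurableSpace X] (μ : Measure X) (h : X → ℝ≥0∞) (hh : Measurable h)
    (a b : ℝ) (ha : 0 ≤ a) (hb : 0 ≤ b) (hab : a + 2 * b = 3) :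
    (∫⁻ x, h x ∂μ) ^ 3 ≤ (∫⁻ x, h x ^ a ∂μ) * (∫⁻ x, h x ^ b ∂μ) ^ 2 := by
  have hH := ENNReal.lintegral_mul_le_Lp_mul_Lq μ (p := 3) (q := 3 / 2)
    (by rw [Real.holderConjugate_iff]; norm_num)
    (f := fun x => h x ^ (a / 3)) (g := fun x => h x ^ (2 * b / 3))
    (by fun_prop) (by fun_prop)
  have e0 : ∀ x, ((fun x => h x ^ (a / 3)) * fun x => h x ^ (2 * b / 3)) x = h x := by
    intro x
    simp only [Pi.mul_apply]
    rw [← ENNReal.rpow_add_of_nonneg _ _ (by positivity) (by positivity)]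
    have : a / 3 + 2 * b / 3 = 1 := by linarith
    rw [this, ENNReal.rpow_one]
  have e1 : ∀ x, (h x ^ (a / 3)) ^ (3 : ℝ) = h x ^ a := by
    intro x
    rw [← ENNReal.rpow_mul]
    congr 1
    ring
  have e2 : ∀ x, (h x ^ (2 * b / 3)) ^ (3 / 2 : ℝ) = h x ^ b := by
    intro x
    rw [← ENNReal.rpow_mul]
    congr 1
    ring
  simp_rw [e0, e1, e2] at hH
  calc (∫⁻ x, h x ∂μ) ^ 3 ≤ ((∫⁻ x, h x ^ a ∂μ) ^ (1 / 3 : ℝ) *
        (∫⁻ x, h x ^ b ∂μ) ^ (1 / (3 / 2) : ℝ)) ^ 3 := pow_le_pow_left' hH 3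
    _ = _ := by
      rw [mul_pow, ← ENNReal.rpow_natCast, ← ENNReal.rpow_natCast, ← ENNReal.rpow_mul,
        ← ENNReal.rpow_mul]
      norm_num

/-- Hölder on a set of finite measure: `∫_S f^t ≤ |S|^(1-t) (∫ f)^t` for `0 < t ≤ 1` -/
theorem jens {X : Type*} [MeasurableSpace X] (μ : Measure X) (f : X → ℝ≥0∞) (hf : Measurable f)
    (t : ℝ) (ht : 0 < t) (ht1 : t ≤ 1) :
    ∫⁻ x, f x ^ t ∂μ ≤ μ univ ^ (1 - t) * (∫⁻ x, f x ∂μ) ^ t := by
  rcases eq_or_lt_of_le ht1 with h1 | h1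
  · rw [h1]
    simp
  have hH := ENNReal.lintegral_mul_le_Lp_mul_Lq μ (p := 1 / (1 - t)) (q := 1 / t)
    (by
      have h2 : 0 < 1 - t := by linarith
      rw [Real.holderConjugate_iff]
      refine ⟨?_, ?_⟩
      · rw [lt_div_iff₀ h2]; linarith
      · field_simp
        ring)
    (f := fun _ : X => (1 : ℝ≥0∞)) (g := fun x => f x ^ t) (by fun_prop) (by fun_prop)
  have e0 : ∀ x, ((fun _ : X => (1 : ℝ≥0∞)) * fun x => f x ^ t) x = f x ^ t := by
    intro x; simp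
  have e1 : ∀ x, (f x ^ t) ^ (1 / t) = f x := by
    intro x
    rw [← ENNReal.rpow_mul, mul_one_div_cancel ht.ne', ENNReal.rpow_one]
  simp_rw [e0, e1] at hH
  refine hH.trans (le_of_eq ?_)
  rw [ENNReal.one_rpow, lintegral_const, one_mul, one_div_one_div, one_div_one_div]

/-- the integral over a line -/
noncomputable def RR (h : ℝ × ℝ → ℝ≥0∞) (θ α : ℝ) : ℝ≥0∞ := ∫⁻ s, h (α - θ * s, s)

theorem RR_meas (h : ℝ × ℝ → ℝ≥0∞) (hh : Measurable h) :
    Measurable (Function.uncurry (RR h)) := by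
  have : Measurable fun z : (ℝ × ℝ) × ℝ => h (z.1.2 - z.1.1 * z.2, z.2) := by fun_prop
  exact this.lintegral_prod_right'

/-- the constant -/
noncomputable def Cκ (κ : ℝ) : ℝ≥0∞ :=
  ∫⁻ r in Icc (-2 : ℝ) 2, ENNReal.ofReal (|r| ^ (-(1 / (κ - 1))))

theorem Cκ_ne (κ : ℝ) (hκ : 2 < κ) : Cκ κ ≠ ∞ := by
  refine pow_int _ ?_ 2
  rw [div_lt_one (by linarith)]
  linarith

/-- one line through a point -/
theorem line (κ : ℝ) (hκ : 2 < κ) (k : ℝ → ℝ≥0∞) (hk : Measurable k)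
    (hs : ∀ r, 2 < |r| → k r = 0) :
    (∫⁻ r, k r) ^ 2 ≤ Cκ κ ^ (2 * (1 - 1 / κ)) *
      (∫⁻ r, ENNReal.ofReal |r| * k r ^ κ) ^ (2 / κ) := by
  have hκ0 : 0 < κ := by linarith
  have hκ1 : 0 < κ - 1 := by linarith
  have hH := ENNReal.lintegral_mul_le_Lp_mul_Lq (volume.restrict (Icc (-2 : ℝ) 2)) (p := κ / (κ - 1))
    (q := κ)
    (by
      rw [Real.holderConjugate_iff]
      refine ⟨?_, ?_⟩
      · rw [lt_div_iff₀ hκ1]; linarith
      · field_simp
        ring)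
    (f := fun r => ENNReal.ofReal (|r| ^ (-(1 / κ))))
    (g := fun r => ENNReal.ofReal (|r| ^ (1 / κ)) * k r) (by fun_prop) (by fun_prop)
  have h1 : ∫⁻ r, k r ≤ ∫⁻ r in Icc (-2 : ℝ) 2,
      ((fun r => ENNReal.ofReal (|r| ^ (-(1 / κ)))) *
        fun r => ENNReal.ofReal (|r| ^ (1 / κ)) * k r) r := by
    rw [← lintegral_indicator measurableSet_Icc]
    refine lintegral_mono_ae ?_
    have : ∀ᵐ r : ℝ, r ≠ 0 := by rw [ae_iff]; simp
    filter_upwards [this] with r hr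
    by_cases h2 : r ∈ Icc (-2 : ℝ) 2
    · rw [indicator_of_mem h2]
      simp only [Pi.mul_apply]
      have hr0 : 0 < |r| := abs_pos.2 hr
      rw [← mul_assoc, ← ENNReal.ofReal_mul (by positivity), ← Real.rpow_add hr0,
        neg_add_cancel, Real.rpow_zero, ENNReal.ofReal_one, one_mul]
    · rw [hs r (by
        rw [mem_Icc, ← abs_le] at h2
        exact not_le.1 h2)]
      exact zero_le
  have e1 : ∀ r : ℝ, (ENNReal.ofReal (|r| ^ (-(1 / κ)))) ^ (κ / (κ - 1)) =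
      ENNReal.ofReal (|r| ^ (-(1 / (κ - 1)))) := by
    intro r
    rw [ENNReal.ofReal_rpow_of_nonneg (by positivity) (by positivity), ← Real.rpow_mul (abs_nonneg r)]
    congr 2
    field_simp
  have e2 : ∀ r : ℝ, (ENNReal.ofReal (|r| ^ (1 / κ)) * k r) ^ κ = ENNReal.ofReal |r| * k r ^ κ := by
    intro r
    rw [ENNReal.mul_rpow_of_nonneg _ _ hκ0.le,
      ENNReal.ofReal_rpow_of_nonneg (by positivity) hκ0.le, ← Real.rpow_mul (abs_nonneg r),
      one_div_mul_cancel hκ0.ne', Real.rpow_one]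
  simp_rw [e1, e2] at hH
  have h3 := h1.trans hH
  have h4 : ∫⁻ r in Icc (-2 : ℝ) 2, ENNReal.ofReal |r| * k r ^ κ ≤
      ∫⁻ r, ENNReal.ofReal |r| * k r ^ κ := setLIntegral_le_lintegral _ _
  calc (∫⁻ r, k r) ^ 2 ≤ (Cκ κ ^ (1 / (κ / (κ - 1))) *
        (∫⁻ r, ENNReal.ofReal |r| * k r ^ κ) ^ (1 / κ)) ^ 2 := by
        refine pow_le_pow_left' (h3.trans ?_) 2
        refine mul_le_mul' (le_refl _) ?_
        exact ENNReal.rpow_le_rpow h4 (by positivity)
    _ = _ := by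
        rw [mul_pow, ← ENNReal.rpow_natCast, ← ENNReal.rpow_natCast, ← ENNReal.rpow_mul,
          ← ENNReal.rpow_mul]
        congr 2
        · push_cast; field_simp
        · push_cast; ring

/-- the lines through a point -/
theorem pencil (κ : ℝ) (hκ : 2 < κ) (g : ℝ × ℝ → ℝ≥0∞) (hg : Measurable g)
    (hs : ∀ x, (1 < |x.1| ∨ 1 < |x.2|) → g x = 0) (x : ℝ × ℝ) (hx : |x.2| ≤ 1) :
    ∫⁻ θ in Icc (-1 : ℝ) 1, RR g θ (x.1 + θ * x.2) ^ 2 ≤
      Cκ κ ^ (2 * (1 - 1 / κ)) * (2 ^ (1 - 2 / κ) * (∫⁻ z, g z ^ κ) ^ (2 / κ)) := by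
  have hκ0 : 0 < κ := by linarith
  -- the line in the coordinate centred at x
  have h1 : ∀ θ, RR g θ (x.1 + θ * x.2) = ∫⁻ r, g (x.1 - θ * r, x.2 + r) := by
    intro θ
    unfold RR
    rw [← shift x.2]
    refine lintegral_congr fun r => ?_
    congr 2
    · ring
    · ring
  have h2 : ∀ θ, RR g θ (x.1 + θ * x.2) ^ 2 ≤ Cκ κ ^ (2 * (1 - 1 / κ)) *
      (∫⁻ r, ENNReal.ofReal |r| * g (x.1 - θ * r, x.2 + r) ^ κ) ^ (2 / κ) := by
    intro θ
    rw [h1 θ]
    refine line κ hκ _ (by fun_prop) ?_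
    intro r hr
    refine hs _ (Or.inr ?_)
    have h3 : |r| ≤ |x.2 + r| + |x.2| := by
      have := abs_sub (x.2 + r) x.2
      rw [add_sub_cancel_left] at this
      exact this
    simp only
    linarith
  have hm : Measurable fun z : ℝ × ℝ => ENNReal.ofReal |z.2| * g (x.1 - z.1 * z.2, x.2 + z.2) ^ κ := by
    fun_prop
  have hm2 : Measurable fun θ : ℝ => ∫⁻ r, ENNReal.ofReal |r| * g (x.1 - θ * r, x.2 + r) ^ κ :=
    hm.lintegral_prod_right'
  refine (lintegral_mono fun θ => h2 θ).trans ?_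
  rw [lintegral_const_mul _ (hm2.pow_const _)]
  refine mul_le_mul' le_rfl ?_
  refine (jens _ _ hm2 (2 / κ) (by positivity) (by rw [div_le_one hκ0]; exact hκ.le)).trans ?_
  have h5 : (volume.restrict (Icc (-1 : ℝ) 1)) univ = 2 := by
    rw [Measure.restrict_apply_univ, Real.volume_Icc]
    norm_num
  rw [h5]
  refine mul_le_mul' le_rfl (ENNReal.rpow_le_rpow ?_ (by positivity))
  -- the Jacobian
  have h6 : ∫⁻ θ in Icc (-1 : ℝ) 1, ∫⁻ r, ENNReal.ofReal |r| * g (x.1 - θ * r, x.2 + r) ^ κ ≤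
      ∫⁻ θ, ∫⁻ r, ENNReal.ofReal |r| * g (x.1 - θ * r, x.2 + r) ^ κ :=
    setLIntegral_le_lintegral _ _
  refine h6.trans ?_
  rw [lintegral_lintegral_swap hm.aemeasurable]
  have h7 : ∀ᵐ r : ℝ, ∫⁻ θ, ENNReal.ofReal |r| * g (x.1 - θ * r, x.2 + r) ^ κ =
      ∫⁻ z, g (z, x.2 + r) ^ κ := by
    have : ∀ᵐ r : ℝ, r ≠ 0 := by rw [ae_iff]; simp
    filter_upwards [this] with r hr
    rw [lintegral_const_mul _ (by fun_prop)]
    have h8 := lin (-r) x.1 (neg_ne_zero.2 hr) (fun z => g (z, x.2 + r) ^ κ) (by fun_prop)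
    rw [← h8, abs_neg]
    congr 1
    refine lintegral_congr fun θ => ?_
    congr 3
    ring
  rw [lintegral_congr_ae h7]
  have h9 : ∫⁻ r, ∫⁻ z, g (z, x.2 + r) ^ κ = ∫⁻ r, ∫⁻ z, g (z, r) ^ κ := by
    rw [← shift x.2 (fun r => ∫⁻ z, g (z, r) ^ κ)]
    refine lintegral_congr fun r => ?_
    rw [add_comm r]
  rw [h9]
  have h10 : Measurable fun z : ℝ × ℝ => g z ^ κ := hg.pow_const κ
  rw [Measure.volume_eq_prod, lintegral_prod_symm _ h10.aemeasurable]

/-- the constant of the estimate for lines -/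
noncomputable def Cr (p : ℝ) : ℝ≥0∞ :=
  Cκ (2 * p / (3 - p)) ^ (2 * (1 - 1 / (2 * p / (3 - p)))) * 2 ^ (1 - 2 / (2 * p / (3 - p)))

theorem κ_gt (p : ℝ) (hp : 3 / 2 < p) (hp3 : p < 3) : 2 < 2 * p / (3 - p) := by
  rw [lt_div_iff₀ (by linarith)]
  linarith

theorem Cr_ne (p : ℝ) (hp : 3 / 2 < p) (hp3 : p < 3) : Cr p ≠ ∞ := by
  have hκ := κ_gt p hp hp3
  unfold Cr
  refine ENNReal.mul_ne_top ?_ ?_
  · refine ENNReal.rpow_ne_top_of_nonneg ?_ (Cκ_ne _ hκ)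
    have : 1 / (2 * p / (3 - p)) ≤ 1 := by
      rw [div_le_one (by linarith)]; linarith
    linarith
  · refine ENNReal.rpow_ne_top_of_nonneg ?_ (by norm_num)
    have : 2 / (2 * p / (3 - p)) ≤ 1 := by
      rw [div_le_one (by linarith)]; linarith
    linarith

theorem radon (p : ℝ) (hp : 3 / 2 < p) (hp3 : p < 3) (h : ℝ × ℝ → ℝ≥0∞) (hh : Measurable h)
    (hs : ∀ x, (1 < |x.1| ∨ 1 < |x.2|) → h x = 0) :
    ∫⁻ θ in Icc (-1 : ℝ) 1, ∫⁻ α, RR h θ α ^ 3 ≤ Cr p * (∫⁻ z, h z ^ p) ^ (3 / p) := by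
  set κ : ℝ := 2 * p / (3 - p) with hκd
  have hκ : 2 < κ := κ_gt p hp hp3
  have hκ0 : 0 < κ := by linarith
  have hp0 : 0 < p := by linarith
  set b : ℝ := (3 - p) / 2 with hb
  have hb0 : 0 < b := by rw [hb]; linarith
  have hbκ : b * κ = p := by
    rw [hb, hκd]
    have : 3 - p ≠ 0 := by linarith
    field_simp
  have h1 : ∀ θ α, RR h θ α ^ 3 ≤ RR (fun z => h z ^ p) θ α * RR (fun z => h z ^ b) θ α ^ 2 := by
    intro θ α
    unfold RR
    exact three _ _ (by fun_prop) p b hp0.le hb0.le (by rw [hb]; ring)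
  have hRm := RR_meas (fun z => h z ^ b) (hh.pow_const b)
  have hRu : ∀ z : ℝ × ℝ, Function.uncurry (RR fun z => h z ^ b) z =
      RR (fun z => h z ^ b) z.1 z.2 := fun z => rfl
  have hR2 : Measurable fun z : ℝ × ℝ => RR (fun z => h z ^ b) z.1 z.2 := hRm
  have h2 : ∀ θ, ∫⁻ α, RR h θ α ^ 3 ≤
      ∫⁻ x : ℝ × ℝ, h x ^ p * RR (fun z => h z ^ b) θ (x.1 + θ * x.2) ^ 2 := by
    intro θ
    refine (lintegral_mono fun α => h1 θ α).trans (le_of_eq ?_)
    have hm1 : Measurable fun α => RR (fun z => h z ^ b) θ α := hR2.comp measurable_prodMk_left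
    have e1 : ∀ α, RR (fun z => h z ^ p) θ α * RR (fun z => h z ^ b) θ α ^ 2 =
        ∫⁻ s, h (α - θ * s, s) ^ p * RR (fun z => h z ^ b) θ α ^ 2 := by
      intro α
      rw [lintegral_mul_const _ (by fun_prop)]
      rfl
    simp_rw [e1]
    have hm3 : Measurable fun z : ℝ × ℝ => h (z.1 - θ * z.2, z.2) ^ p *
        RR (fun z => h z ^ b) θ z.1 ^ 2 := by
      refine Measurable.mul (by fun_prop) ((hm1.comp measurable_fst).pow_const 2)
    rw [lintegral_lintegral_swap hm3.aemeasurable]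
    have hm4 : Measurable fun x : ℝ × ℝ => h x ^ p *
        RR (fun z => h z ^ b) θ (x.1 + θ * x.2) ^ 2 := by
      refine Measurable.mul (by fun_prop) ((hm1.comp (by fun_prop)).pow_const 2)
    rw [Measure.volume_eq_prod, lintegral_prod_symm _ hm4.aemeasurable]
    refine lintegral_congr fun s => ?_
    rw [← shift (θ * s)]
    refine lintegral_congr fun x => ?_
    simp only [add_sub_cancel_right]
  refine (lintegral_mono fun θ => h2 θ).trans ?_
  have hm5 : Measurable fun z : ℝ × (ℝ × ℝ) => h z.2 ^ p *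
      RR (fun z => h z ^ b) z.1 (z.2.1 + z.1 * z.2.2) ^ 2 := by
    refine Measurable.mul (by fun_prop) (Measurable.pow_const ?_ 2)
    exact hR2.comp (f := fun z : ℝ × (ℝ × ℝ) => (z.1, z.2.1 + z.1 * z.2.2)) (by fun_prop)
  rw [lintegral_lintegral_swap hm5.aemeasurable]
  have h3 : ∀ x : ℝ × ℝ, ∫⁻ θ in Icc (-1 : ℝ) 1, h x ^ p *
      RR (fun z => h z ^ b) θ (x.1 + θ * x.2) ^ 2 ≤
      h x ^ p * (Cr p * (∫⁻ z, h z ^ p) ^ (2 / κ)) := by
    intro x
    have hmx : Measurable fun θ : ℝ => RR (fun z => h z ^ b) θ (x.1 + θ * x.2) ^ 2 :=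
      (hR2.comp (f := fun θ : ℝ => (θ, x.1 + θ * x.2)) (by fun_prop)).pow_const 2
    rw [lintegral_const_mul _ hmx]
    by_cases hx : |x.2| ≤ 1
    · refine mul_le_mul' le_rfl ?_
      refine (pencil κ hκ (fun z => h z ^ b) (hh.pow_const b) (fun z hz => by
        rw [hs z hz, ENNReal.zero_rpow_of_pos hb0]) x hx).trans (le_of_eq ?_)
      have e2 : ∀ z, (h z ^ b) ^ κ = h z ^ p := fun z => by rw [← ENNReal.rpow_mul, hbκ]
      have e4 : ∫⁻ z, ((fun z => h z ^ b) z) ^ κ = ∫⁻ z, h z ^ p := lintegral_congr e2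
      rw [e4]
      unfold Cr
      rw [← hκd]
      ring
    · rw [hs x (Or.inr (not_le.1 hx)), ENNReal.zero_rpow_of_pos hp0, zero_mul, zero_mul]
  refine (lintegral_mono h3).trans (le_of_eq ?_)
  rw [lintegral_mul_const _ (hh.pow_const p)]
  set I := ∫⁻ z, h z ^ p
  have e3 : 3 / p = 1 + 2 / κ := by
    rw [hκd]
    have : 3 - p ≠ 0 := by linarith
    field_simp
    ring
  rw [e3, ENNReal.rpow_add_of_nonneg _ _ zero_le_one (by positivity), ENNReal.rpow_one]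
  ring

end Pool.Agent.N248.LQ
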