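import Mathlib
import Pool.Agent.N248.LQ.A
set_option autoImplicit false

/-! The bilinear estimate for the differences of points of the paraboloid in `ℝ³`:
`∫∫ F(x) F(y) H(Φ(x) - Φ(y)) dx dy ≤ C ‖F‖_q² ‖H‖_{q/2}`, `3 < q ≤ 4`. -/

namespace Pool.Agent.N248.LQ

open MeasureTheory Set Metric
open scoped ENNReal

/-- the `L^σ` norm on lines from the `L^3` norm -/
theorem lower (σ : ℝ) (hσ : 0 < σ) (hσ3 : σ ≤ 3) (h : ℝ × ℝ → ℝ≥0∞) (hh : Measurable h)
    (hs : ∀ x, (1 < |x.1| ∨ 1 < |x.2|) → h x = 0) :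
    ∫⁻ θ in Icc (-1 : ℝ) 1, ∫⁻ α, RR h θ α ^ σ ≤
      8 ^ (1 - σ / 3) * (∫⁻ θ in Icc (-1 : ℝ) 1, ∫⁻ α, RR h θ α ^ 3) ^ (σ / 3) := by
  have hR2 : Measurable fun z : ℝ × ℝ => RR h z.1 z.2 := RR_meas h hh
  have hθ : ∀ θ : ℝ, Measurable fun α => RR h θ α := fun θ => hR2.comp measurable_prodMk_left
  have ht : 0 < σ / 3 := by positivity
  have ht1 : σ / 3 ≤ 1 := by linarith
  have h1 : ∀ θ ∈ Icc (-1 : ℝ) 1, ∫⁻ α, RR h θ α ^ σ ≤
      4 ^ (1 - σ / 3) * (∫⁻ α, RR h θ α ^ 3) ^ (σ / 3) := by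
    intro θ hθ1
    have e1 : ∫⁻ α, RR h θ α ^ σ ≤ ∫⁻ α in Icc (-2 : ℝ) 2, (RR h θ α ^ 3) ^ (σ / 3) := by
      rw [← lintegral_indicator measurableSet_Icc]
      refine lintegral_mono fun α => ?_
      by_cases hα : α ∈ Icc (-2 : ℝ) 2
      · rw [indicator_of_mem hα, ← ENNReal.rpow_natCast, ← ENNReal.rpow_mul]
        refine le_of_eq ?_
        congr 1
        push_cast
        ring
      · have : RR h θ α = 0 := by
          unfold RR
          rw [lintegral_eq_zero_iff (by fun_prop)]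
          refine Filter.Eventually.of_forall fun s => ?_
          simp only [Pi.zero_apply]
          refine hs _ ?_
          by_contra hc
          push Not at hc
          simp only at hc
          rw [mem_Icc, ← abs_le] at hα hθ1
          apply hα
          have a1 : |θ * s| ≤ 1 := by
            rw [abs_mul]
            exact mul_le_one₀ hθ1 (abs_nonneg _) hc.2
          have a2 : |α| ≤ |α - θ * s| + |θ * s| := by
            have := abs_add_le (α - θ * s) (θ * s)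
            rwa [sub_add_cancel] at this
          linarith [hc.1]
        rw [this, ENNReal.zero_rpow_of_pos hσ]
        exact zero_le
    refine e1.trans ((jens _ _ ((hθ θ).pow_const 3) (σ / 3) ht ht1).trans ?_)
    have h5 : (volume.restrict (Icc (-2 : ℝ) 2)) univ = 4 := by
      rw [Measure.restrict_apply_univ, Real.volume_Icc]
      norm_num
    rw [h5]
    refine mul_le_mul' le_rfl (ENNReal.rpow_le_rpow (setLIntegral_le_lintegral _ _) ht.le)
  have hm3 : Measurable fun θ => ∫⁻ α, RR h θ α ^ 3 := (hR2.pow_const 3).lintegral_prod_right'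
  refine (setLIntegral_mono' measurableSet_Icc h1).trans ?_
  rw [lintegral_const_mul _ (hm3.pow_const _)]
  have h6 := jens (volume.restrict (Icc (-1 : ℝ) 1)) _ hm3 (σ / 3) ht ht1
  have h5 : (volume.restrict (Icc (-1 : ℝ) 1)) univ = 2 := by
    rw [Measure.restrict_apply_univ, Real.volume_Icc]
    norm_num
  rw [h5] at h6
  refine (mul_le_mul' le_rfl h6).trans (le_of_eq ?_)
  rw [← mul_assoc, ← ENNReal.mul_rpow_of_nonneg _ _ (by linarith)]
  norm_num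

/-- the part of the bilinear form with differences of slope at most one -/
noncomputable def Bil1 (F : ℝ × ℝ → ℝ≥0∞) (H : ℝ × ℝ × ℝ → ℝ≥0∞) : ℝ≥0∞ :=
  ∫⁻ y : ℝ × ℝ, ∫⁻ x : ℝ × ℝ, if |x.2 - y.2| ≤ |x.1 - y.1| then
    F x * F y * H (x.1 - y.1, x.2 - y.2, (x.1 ^ 2 + x.2 ^ 2) - (y.1 ^ 2 + y.2 ^ 2)) else 0

/-- one pencil of parallel lines and one difference -/
noncomputable def BB (F : ℝ × ℝ → ℝ≥0∞) (H : ℝ × ℝ × ℝ → ℝ≥0∞) (u θ : ℝ) : ℝ≥0∞ :=
  ∫⁻ y : ℝ × ℝ, F (y.1 + u, y.2 + θ * u) * F y *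
    H (u, θ * u, 2 * u * (y.1 + θ * y.2) + u ^ 2 * (1 + θ ^ 2))

theorem Bil1_eq (F : ℝ × ℝ → ℝ≥0∞) (H : ℝ × ℝ × ℝ → ℝ≥0∞) (hF : Measurable F)
    (hH : Measurable H) :
    Bil1 F H = ∫⁻ u, ∫⁻ θ in Icc (-1 : ℝ) 1, ENNReal.ofReal |u| * BB F H u θ := by
  unfold Bil1
  -- x = y + v
  have hset : ∀ z : (ℝ × ℝ) × (ℝ × ℝ), Measurable fun z : (ℝ × ℝ) × (ℝ × ℝ) => |z.1.1| :=
    fun z => by fun_prop
  have hmS : MeasurableSet {v : ℝ × ℝ | |v.2| ≤ |v.1|} :=
    measurableSet_le (by fun_prop) (by fun_prop)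
  set G : (ℝ × ℝ) → (ℝ × ℝ) → ℝ≥0∞ := fun v y => F (y + v) * F y *
    H (v.1, v.2, 2 * (v.1 * y.1 + v.2 * y.2) + (v.1 ^ 2 + v.2 ^ 2)) with hG
  have hGm : Measurable fun z : (ℝ × ℝ) × (ℝ × ℝ) => G z.1 z.2 := by
    rw [hG]; fun_prop
  have h1 : ∀ y : ℝ × ℝ, (∫⁻ x : ℝ × ℝ, if |x.2 - y.2| ≤ |x.1 - y.1| then
      F x * F y * H (x.1 - y.1, x.2 - y.2, (x.1 ^ 2 + x.2 ^ 2) - (y.1 ^ 2 + y.2 ^ 2)) else 0) =
      ∫⁻ v : ℝ × ℝ, {v : ℝ × ℝ | |v.2| ≤ |v.1|}.indicator (fun v => G v y) v := by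
    intro y
    rw [← lintegral_add_left_eq_self _ y]
    refine lintegral_congr fun v => ?_
    have e1 : (y + v).1 - y.1 = v.1 := by rw [Prod.fst_add]; ring
    have e2 : (y + v).2 - y.2 = v.2 := by rw [Prod.snd_add]; ring
    have e3 : ((y + v).1 ^ 2 + (y + v).2 ^ 2) - (y.1 ^ 2 + y.2 ^ 2) =
        2 * (v.1 * y.1 + v.2 * y.2) + (v.1 ^ 2 + v.2 ^ 2) := by
      rw [Prod.fst_add, Prod.snd_add]; ring
    rw [e1, e2, e3]
    by_cases hv : |v.2| ≤ |v.1|
    · rw [if_pos hv, indicator_of_mem (show v ∈ {v : ℝ × ℝ | |v.2| ≤ |v.1|} from hv)]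
    · rw [if_neg hv, indicator_of_notMem (show v ∉ {v : ℝ × ℝ | |v.2| ≤ |v.1|} from hv)]
  simp_rw [h1]
  have hm1 : Measurable fun z : (ℝ × ℝ) × (ℝ × ℝ) =>
      {v : ℝ × ℝ | |v.2| ≤ |v.1|}.indicator (fun v => G v z.1) z.2 := by
    have : (fun z : (ℝ × ℝ) × (ℝ × ℝ) =>
      {v : ℝ × ℝ | |v.2| ≤ |v.1|}.indicator (fun v => G v z.1) z.2) =
      (Prod.snd ⁻¹' {v : ℝ × ℝ | |v.2| ≤ |v.1|}).indicator fun z : (ℝ × ℝ) × (ℝ × ℝ) =>
        G z.2 z.1 := by
      ext z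
      by_cases hz : z.2 ∈ {v : ℝ × ℝ | |v.2| ≤ |v.1|}
      · rw [indicator_of_mem hz, indicator_of_mem (by exact hz)]
      · rw [indicator_of_notMem hz, indicator_of_notMem (by exact hz)]
    rw [this]
    exact (hGm.comp measurable_swap).indicator (hmS.preimage measurable_snd)
  rw [lintegral_lintegral_swap hm1.aemeasurable]
  have h2 : ∀ v : ℝ × ℝ, ∫⁻ y : ℝ × ℝ, {v : ℝ × ℝ | |v.2| ≤ |v.1|}.indicator (fun v => G v y) v =
      {v : ℝ × ℝ | |v.2| ≤ |v.1|}.indicator (fun v => ∫⁻ y, G v y) v := by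
    intro v
    by_cases hv : v ∈ {v : ℝ × ℝ | |v.2| ≤ |v.1|}
    · simp_rw [indicator_of_mem hv]
    · simp_rw [indicator_of_notMem hv]
      simp
  simp_rw [h2]
  have hm2 : Measurable fun v : ℝ × ℝ => ∫⁻ y, G v y := hGm.lintegral_prod_right'
  have hm3 : Measurable fun v : ℝ × ℝ =>
      {v : ℝ × ℝ | |v.2| ≤ |v.1|}.indicator (fun v => ∫⁻ y, G v y) v := hm2.indicator hmS
  rw [fub _ hm3]
  refine lintegral_congr_ae ?_
  have : ∀ᵐ u : ℝ, u ≠ 0 := by rw [ae_iff]; simp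
  filter_upwards [this] with u hu
  have h3 := lin u 0 hu (fun v2 => {v : ℝ × ℝ | |v.2| ≤ |v.1|}.indicator
    (fun v => ∫⁻ y, G v y) (u, v2)) (hm3.comp measurable_prodMk_left)
  rw [← h3, ← lintegral_indicator measurableSet_Icc, ← lintegral_const_mul _ (by
    exact (hm3.comp (f := fun x : ℝ => (u, u * x + 0)) (by fun_prop)))]
  refine lintegral_congr fun θ => ?_
  have hiff : (u, u * θ + 0) ∈ {v : ℝ × ℝ | |v.2| ≤ |v.1|} ↔ θ ∈ Icc (-1 : ℝ) 1 := by
    rw [mem_Icc, ← abs_le]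
    simp only [mem_ofPred_eq, add_zero, abs_mul]
    have hu0 : 0 < |u| := abs_pos.2 hu
    constructor
    · intro h
      by_contra hc
      push Not at hc
      nlinarith
    · intro h
      nlinarith
  by_cases hθ : θ ∈ Icc (-1 : ℝ) 1
  · rw [indicator_of_mem (hiff.2 hθ), indicator_of_mem hθ]
    congr 1
    unfold BB
    refine lintegral_congr fun y => ?_
    rw [hG]
    have e1 : y + (u, u * θ + 0) = (y.1 + u, y.2 + θ * u) := by
      ext
      · simp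
      · simp [mul_comm]
    have e2 : ((u : ℝ), u * θ + 0, 2 * (u * y.1 + (u * θ + 0) * y.2) +
        (u ^ 2 + (u * θ + 0) ^ 2)) = (u, θ * u, 2 * u * (y.1 + θ * y.2) + u ^ 2 * (1 + θ ^ 2)) := by
      ext
      · rfl
      · simp [mul_comm]
      · simp only; ring
    simp only [e1, e2]
  · rw [indicator_of_notMem (fun h => hθ (hiff.1 h)), indicator_of_notMem hθ, mul_zero]

/-- the estimate for one pencil of parallel lines -/
theorem BB_le (σ τ : ℝ) (hστ : σ.HolderConjugate τ) (F : ℝ × ℝ → ℝ≥0∞) (H : ℝ × ℝ × ℝ → ℝ≥0∞)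
    (hF : Measurable F) (hH : Measurable H) (u θ : ℝ) :
    BB F H u θ ≤ (∫⁻ α, RR (fun z => F z ^ 2) θ α ^ σ) ^ (1 / σ) *
      (∫⁻ α, H (u, θ * u, 2 * u * α + u ^ 2 * (1 + θ ^ 2)) ^ τ) ^ (1 / τ) := by
  have hσ0 : 0 < σ := hστ.pos
  have hF2 : Measurable fun z => F z ^ 2 := hF.pow_const 2
  have hR2 : Measurable fun z : ℝ × ℝ => RR (fun z => F z ^ 2) z.1 z.2 := RR_meas _ hF2
  have hP : Measurable fun α => RR (fun z => F z ^ 2) θ α := hR2.comp measurable_prodMk_left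
  set P : ℝ → ℝ≥0∞ := fun α => RR (fun z => F z ^ 2) θ α with hPd
  set c : ℝ := u * (1 + θ ^ 2) with hc
  set h : ℝ → ℝ≥0∞ := fun α => H (u, θ * u, 2 * u * α + u ^ 2 * (1 + θ ^ 2)) with hh
  have hhm : Measurable h := by rw [hh]; fun_prop
  have h1 : BB F H u θ ≤ ∫⁻ α, (P (α + c) ^ (1 / 2 : ℝ) * P α ^ (1 / 2 : ℝ)) * h α := by
    unfold BB
    have hm1 : Measurable fun y : ℝ × ℝ => F (y.1 + u, y.2 + θ * u) * F y *
        H (u, θ * u, 2 * u * (y.1 + θ * y.2) + u ^ 2 * (1 + θ ^ 2)) := by fun_prop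
    rw [fub' _ hm1]
    have e1 : ∀ s : ℝ, ∫⁻ x : ℝ, F (x + u, s + θ * u) * F (x, s) *
        H (u, θ * u, 2 * u * (x + θ * s) + u ^ 2 * (1 + θ ^ 2)) =
        ∫⁻ α : ℝ, F (α - θ * s + u, s + θ * u) * F (α - θ * s, s) * h α := by
      intro s
      rw [← shift (-(θ * s))]
      refine lintegral_congr fun α => ?_
      rw [hh]
      simp only
      congr 3
      all_goals ring_nf
    simp only [e1]
    have hm2 : Measurable fun z : ℝ × ℝ => F (z.2 - θ * z.1 + u, z.1 + θ * u) *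
        F (z.2 - θ * z.1, z.1) * h z.2 := by fun_prop
    rw [lintegral_lintegral_swap hm2.aemeasurable]
    refine lintegral_mono fun α => ?_
    rw [lintegral_mul_const _ (by fun_prop)]
    refine mul_le_mul' ?_ le_rfl
    have hcs := ENNReal.lintegral_mul_le_Lp_mul_Lq volume Real.HolderConjugate.two_two
      (f := fun s => F (α - θ * s + u, s + θ * u)) (g := fun s => F (α - θ * s, s))
      (by fun_prop) (by fun_prop)
    refine hcs.trans (mul_le_mul' (le_of_eq ?_) (le_of_eq ?_))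
    · congr 1
      have e5 := shift (θ * u) (fun s => F (α + c - θ * s, s) ^ 2)
      have e6 : P (α + c) = ∫⁻ s, F (α + c - θ * s, s) ^ 2 := rfl
      rw [e6, ← e5]
      refine lintegral_congr fun s => ?_
      rw [ENNReal.rpow_ofNat]
      congr 3
      rw [hc]
      ring
    · congr 1
      have e6 : P α = ∫⁻ s, F (α - θ * s, s) ^ 2 := rfl
      rw [e6]
      refine lintegral_congr fun s => ?_
      rw [ENNReal.rpow_ofNat]
  refine h1.trans ?_
  have h2 := ENNReal.lintegral_mul_le_Lp_mul_Lq volume hστ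
    (f := fun α => P (α + c) ^ (1 / 2 : ℝ) * P α ^ (1 / 2 : ℝ)) (g := h) (by fun_prop) (by fun_prop)
  refine h2.trans (mul_le_mul' ?_ le_rfl)
  refine ENNReal.rpow_le_rpow ?_ (by positivity)
  have h3 := ENNReal.lintegral_mul_le_Lp_mul_Lq volume Real.HolderConjugate.two_two
      (f := fun α => P (α + c) ^ (σ / 2)) (g := fun α => P α ^ (σ / 2))
      (by fun_prop) (by fun_prop)
  have e2 : ∀ α, (P (α + c) ^ (1 / 2 : ℝ) * P α ^ (1 / 2 : ℝ)) ^ σ =
      ((fun α => P (α + c) ^ (σ / 2)) * fun α => P α ^ (σ / 2)) α := by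
    intro α
    simp only [Pi.mul_apply]
    rw [ENNReal.mul_rpow_of_nonneg _ _ hσ0.le, ← ENNReal.rpow_mul, ← ENNReal.rpow_mul]
    congr 2
    · ring
    · ring
  have e3 : ∀ x : ℝ≥0∞, (x ^ (σ / 2)) ^ (2 : ℝ) = x ^ σ := by
    intro x
    rw [← ENNReal.rpow_mul]
    congr 1
    ring
  simp_rw [e2]
  refine h3.trans (le_of_eq ?_)
  simp_rw [e3]
  rw [shift c (fun α => P α ^ σ), ← ENNReal.rpow_add_of_nonneg _ _ (by norm_num) (by norm_num)]
  have e8 : (1 / 2 + 1 / 2 : ℝ) = 1 := by norm_num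
  rw [e8, ENNReal.rpow_one]

/-- the constant of the singular factor -/
noncomputable def Cs (q : ℝ) : ℝ≥0∞ :=
  ∫⁻ r in Icc (-2 : ℝ) 2, ENNReal.ofReal (|r| ^ (-((4 - q) / (q - 2))))

theorem Cs_ne (q : ℝ) (hq : 3 < q) : Cs q ≠ ∞ := by
  refine pow_int _ ?_ 2
  rw [div_lt_one (by linarith)]
  linarith

theorem bil1_le (q : ℝ) (hq : 3 < q) (hq4 : q ≤ 4) (F : ℝ × ℝ → ℝ≥0∞) (H : ℝ × ℝ × ℝ → ℝ≥0∞)
    (hF : Measurable F) (hH : Measurable H) (hs : ∀ x, (1 < |x.1| ∨ 1 < |x.2|) → F x = 0) :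
    Bil1 F H ≤ (Cs q * ∫⁻ θ in Icc (-1 : ℝ) 1, ∫⁻ α, RR (fun z => F z ^ 2) θ α ^ (q / (q - 2))) ^
        ((q - 2) / q) * (∫⁻ z, H z ^ (q / 2)) ^ (2 / q) := by
  have hq0 : 0 < q := by linarith
  have hq2 : 0 < q - 2 := by linarith
  set σ : ℝ := q / (q - 2) with hσ
  set τ : ℝ := q / 2 with hτ
  have hστ : σ.HolderConjugate τ := by
    rw [Real.holderConjugate_iff]
    refine ⟨?_, ?_⟩
    · rw [hσ, lt_div_iff₀ hq2]; linarith
    · rw [hσ, hτ]; field_simp; ring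
  have hσ0 : 0 < σ := hστ.pos
  have hτ0 : 0 < τ := hστ.symm.pos
  have hσi : 1 / σ = (q - 2) / q := by rw [hσ, one_div_div]
  have hτi : 1 / τ = 2 / q := by rw [hτ, one_div_div]
  have hF2 : Measurable fun z => F z ^ 2 := hF.pow_const 2
  have hR2 : Measurable fun z : ℝ × ℝ => RR (fun z => F z ^ 2) z.1 z.2 := RR_meas _ hF2
  set Nn : ℝ → ℝ≥0∞ := fun θ => ∫⁻ α, RR (fun z => F z ^ 2) θ α ^ σ with hN
  have hNm : Measurable Nn := (hR2.pow_const σ).lintegral_prod_right'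
  set D : ℝ → ℝ → ℝ≥0∞ := fun u θ =>
    ∫⁻ α, H (u, θ * u, 2 * u * α + u ^ 2 * (1 + θ ^ 2)) ^ τ with hD
  have hDm : Measurable fun z : ℝ × ℝ => D z.1 z.2 := by
    have : Measurable fun z : (ℝ × ℝ) × ℝ =>
        H (z.1.1, z.1.2 * z.1.1, 2 * z.1.1 * z.2 + z.1.1 ^ 2 * (1 + z.1.2 ^ 2)) ^ τ := by fun_prop
    exact this.lintegral_prod_right'
  rw [Bil1_eq F H hF hH]
  -- the range of u
  have hzero : ∀ u θ, 2 < |u| → BB F H u θ = 0 := by
    intro u θ hu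
    unfold BB
    rw [lintegral_eq_zero_iff (by fun_prop)]
    refine Filter.Eventually.of_forall fun y => ?_
    simp only [Pi.zero_apply]
    by_cases hy : 1 < |y.1|
    · rw [hs y (Or.inl hy)]; simp
    · have : 1 < |y.1 + u| := by
        have a1 : |u| ≤ |y.1 + u| + |y.1| := by
          have := abs_sub (y.1 + u) y.1
          rwa [add_sub_cancel_left] at this
        push Not at hy
        linarith
      rw [hs (y.1 + u, y.2 + θ * u) (Or.inl this)]; simp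
  have h1 : ∫⁻ u, ∫⁻ θ in Icc (-1 : ℝ) 1, ENNReal.ofReal |u| * BB F H u θ ≤
      ∫⁻ u in Icc (-2 : ℝ) 2, ∫⁻ θ in Icc (-1 : ℝ) 1,
        (ENNReal.ofReal (|u| ^ (1 - 2 / τ)) * Nn θ ^ (1 / σ)) *
          (ENNReal.ofReal (|u| ^ (2 / τ)) * D u θ ^ (1 / τ)) := by
    rw [← lintegral_indicator measurableSet_Icc]
    refine lintegral_mono_ae ?_
    have : ∀ᵐ u : ℝ, u ≠ 0 := by rw [ae_iff]; simp
    filter_upwards [this] with u hu
    by_cases hu2 : u ∈ Icc (-2 : ℝ) 2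
    · rw [indicator_of_mem hu2]
      refine lintegral_mono fun θ => ?_
      refine (mul_le_mul' le_rfl (BB_le σ τ hστ F H hF hH u θ)).trans (le_of_eq ?_)
      have hu0 : 0 < |u| := abs_pos.2 hu
      have e : ENNReal.ofReal |u| = ENNReal.ofReal (|u| ^ (1 - 2 / τ)) *
          ENNReal.ofReal (|u| ^ (2 / τ)) := by
        rw [← ENNReal.ofReal_mul (by positivity), ← Real.rpow_add hu0, sub_add_cancel,
          Real.rpow_one]
      rw [e]
      simp only [hN, hD]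
      ring
    · rw [indicator_of_notMem hu2]
      refine le_of_eq ?_
      rw [mem_Icc, ← abs_le, not_le] at hu2
      simp_rw [hzero u _ hu2]
      simp
  refine h1.trans ?_
  have hm2 : Measurable fun z : ℝ × ℝ => (ENNReal.ofReal (|z.1| ^ (1 - 2 / τ)) * Nn z.2 ^ (1 / σ)) *
          (ENNReal.ofReal (|z.1| ^ (2 / τ)) * D z.1 z.2 ^ (1 / τ)) := by fun_prop
  rw [← lintegral_prod (μ := volume.restrict (Icc (-2 : ℝ) 2)) (ν := volume.restrict (Icc (-1 : ℝ) 1))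
    _ hm2.aemeasurable]
  have h2 := ENNReal.lintegral_mul_le_Lp_mul_Lq
    ((volume.restrict (Icc (-2 : ℝ) 2)).prod (volume.restrict (Icc (-1 : ℝ) 1))) hστ
    (f := fun z : ℝ × ℝ => ENNReal.ofReal (|z.1| ^ (1 - 2 / τ)) * Nn z.2 ^ (1 / σ))
    (g := fun z : ℝ × ℝ => ENNReal.ofReal (|z.1| ^ (2 / τ)) * D z.1 z.2 ^ (1 / τ))
    (by fun_prop) (by fun_prop)
  refine h2.trans ?_
  rw [← hσi, ← hτi]
  refine mul_le_mul' (ENNReal.rpow_le_rpow ?_ (by positivity))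
    (ENNReal.rpow_le_rpow ?_ (by positivity))
  · have e1 : ∀ z : ℝ × ℝ, (ENNReal.ofReal (|z.1| ^ (1 - 2 / τ)) * Nn z.2 ^ (1 / σ)) ^ σ =
        ENNReal.ofReal (|z.1| ^ (-((4 - q) / (q - 2)))) * Nn z.2 := by
      intro z
      rw [ENNReal.mul_rpow_of_nonneg _ _ hσ0.le,
        ENNReal.ofReal_rpow_of_nonneg (by positivity) hσ0.le, ← Real.rpow_mul (abs_nonneg _),
        ← ENNReal.rpow_mul, one_div_mul_cancel hσ0.ne', ENNReal.rpow_one]
      congr 3
      rw [hσ, hτ]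
      field_simp
      ring
    simp_rw [e1]
    rw [lintegral_prod_mul (f := fun u : ℝ => ENNReal.ofReal (|u| ^ (-((4 - q) / (q - 2)))))
      (g := Nn) (by fun_prop) hNm.aemeasurable]
    exact le_refl _
  · have e1 : ∀ z : ℝ × ℝ, (ENNReal.ofReal (|z.1| ^ (2 / τ)) * D z.1 z.2 ^ (1 / τ)) ^ τ =
        ENNReal.ofReal |z.1| * (ENNReal.ofReal |z.1| * D z.1 z.2) := by
      intro z
      rw [ENNReal.mul_rpow_of_nonneg _ _ hτ0.le,
        ENNReal.ofReal_rpow_of_nonneg (by positivity) hτ0.le, ← Real.rpow_mul (abs_nonneg _),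
        ← ENNReal.rpow_mul, one_div_mul_cancel hτ0.ne', ENNReal.rpow_one, ← mul_assoc,
        ← ENNReal.ofReal_mul (abs_nonneg _)]
      congr 2
      have : 2 / τ * τ = (2 : ℕ) := by field_simp; norm_num
      rw [this, Real.rpow_natCast, sq]
    simp_rw [e1]
    have hm3 : Measurable fun z : ℝ × ℝ =>
        ENNReal.ofReal |z.1| * (ENNReal.ofReal |z.1| * D z.1 z.2) := by fun_prop
    rw [lintegral_prod _ hm3.aemeasurable]
    refine (setLIntegral_le_lintegral _ _).trans ?_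
    have hHt : Measurable fun z => H z ^ τ := hH.pow_const τ
    rw [fub _ hHt]
    refine lintegral_mono_ae ?_
    have : ∀ᵐ u : ℝ, u ≠ 0 := by rw [ae_iff]; simp
    filter_upwards [this] with u hu
    refine (setLIntegral_le_lintegral _ _).trans ?_
    have hu0 : 0 < |u| := abs_pos.2 hu
    have e4 : ∀ θ, ENNReal.ofReal |u| * D u θ ≤ ∫⁻ t, H (u, θ * u, t) ^ τ := by
      intro θ
      have := lin (2 * u) (u ^ 2 * (1 + θ ^ 2)) (by positivity) (fun t => H (u, θ * u, t) ^ τ)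
        (by fun_prop)
      rw [← this]
      refine mul_le_mul' (ENNReal.ofReal_le_ofReal ?_) le_rfl
      rw [abs_mul, abs_two]
      linarith
    refine (lintegral_mono fun θ => mul_le_mul' le_rfl (e4 θ)).trans (le_of_eq ?_)
    have hm5 : Measurable fun v : ℝ => ∫⁻ t, H (u, v, t) ^ τ := by
      have : Measurable fun z : ℝ × ℝ => H (u, z.1, z.2) ^ τ := by fun_prop
      exact this.lintegral_prod_right'
    have h6 := lin u 0 hu (fun v => ∫⁻ t, H (u, v, t) ^ τ) hm5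
    have h7 : ∫⁻ y : ℝ × ℝ, H (u, y) ^ τ = ∫⁻ v : ℝ, ∫⁻ t : ℝ, H (u, v, t) ^ τ := by
      rw [fub _ (by fun_prop)]
    have hm6 : Measurable fun θ : ℝ => ∫⁻ t, H (u, θ * u, t) ^ τ :=
      hm5.comp (f := fun θ : ℝ => θ * u) (by fun_prop)
    rw [h7, ← h6, lintegral_const_mul _ hm6]
    congr 1
    refine lintegral_congr fun θ => ?_
    rw [add_zero, mul_comm]

end Pool.Agent.N248.LQ
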