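import Mathlib
import Pool.Agent.N248.LQ.B
set_option autoImplicit false

/-! The bilinear estimate for all differences and all `q > 3`. -/

namespace Pool.Agent.N248.LQ

open MeasureTheory Set Metric
open scoped ENNReal

/-- the bilinear form -/
noncomputable def Bil (F : ℝ × ℝ → ℝ≥0∞) (H : ℝ × ℝ × ℝ → ℝ≥0∞) : ℝ≥0∞ :=
  ∫⁻ y : ℝ × ℝ, ∫⁻ x : ℝ × ℝ,
    F x * F y * H (x.1 - y.1, x.2 - y.2, (x.1 ^ 2 + x.2 ^ 2) - (y.1 ^ 2 + y.2 ^ 2))

theorem swap2 (f : ℝ × ℝ → ℝ≥0∞) : ∫⁻ z : ℝ × ℝ, f z.swap = ∫⁻ z, f z := by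
  have h := (Measure.measurePreserving_swap (μ := (volume : Measure ℝ)) (ν := (volume : Measure ℝ)))
  exact h.lintegral_comp_emb MeasurableEquiv.prodComm.measurableEmbedding f

theorem swap3 (f : ℝ × ℝ × ℝ → ℝ≥0∞) (hf : Measurable f) :
    ∫⁻ z : ℝ × ℝ × ℝ, f (z.2.1, z.1, z.2.2) = ∫⁻ z, f z := by
  rw [fub _ hf, fub _ (by fun_prop)]
  have h1 : ∀ x : ℝ, ∫⁻ y : ℝ × ℝ, f (y.1, x, y.2) = ∫⁻ a : ℝ, ∫⁻ t : ℝ, f (a, x, t) := by
    intro x
    rw [fub _ (by fun_prop)]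
  have h2 : ∀ x : ℝ, ∫⁻ y : ℝ × ℝ, f (x, y) = ∫⁻ a : ℝ, ∫⁻ t : ℝ, f (x, a, t) := by
    intro x
    rw [fub _ (by fun_prop)]
  simp_rw [h1, h2]
  have hm : Measurable fun z : ℝ × ℝ => ∫⁻ t : ℝ, f (z.1, z.2, t) := by
    have : Measurable fun z : (ℝ × ℝ) × ℝ => f (z.1.1, z.1.2, z.2) := by fun_prop
    exact this.lintegral_prod_right'
  rw [lintegral_lintegral_swap (f := fun x a => ∫⁻ t : ℝ, f (a, x, t))]
  exact (hm.comp measurable_swap).aemeasurable

theorem Bil_split (F : ℝ × ℝ → ℝ≥0∞) (H : ℝ × ℝ × ℝ → ℝ≥0∞) (hF : Measurable F)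
    (hH : Measurable H) :
    Bil F H ≤ Bil1 F H + Bil1 (fun z => F z.swap) (fun z => H (z.2.1, z.1, z.2.2)) := by
  set A : (ℝ × ℝ) → (ℝ × ℝ) → ℝ≥0∞ := fun y x => if |x.2 - y.2| ≤ |x.1 - y.1| then
    F x * F y * H (x.1 - y.1, x.2 - y.2, (x.1 ^ 2 + x.2 ^ 2) - (y.1 ^ 2 + y.2 ^ 2)) else 0 with hA
  set B : (ℝ × ℝ) → (ℝ × ℝ) → ℝ≥0∞ := fun y x => if |x.1 - y.1| ≤ |x.2 - y.2| then
    F x * F y * H (x.1 - y.1, x.2 - y.2, (x.1 ^ 2 + x.2 ^ 2) - (y.1 ^ 2 + y.2 ^ 2)) else 0 with hB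
  have hAm : Measurable (Function.uncurry A) := by
    rw [hA]
    refine Measurable.ite (measurableSet_le (by fun_prop) (by fun_prop)) (by fun_prop)
      measurable_const
  have hBm : Measurable (Function.uncurry B) := by
    rw [hB]
    refine Measurable.ite (measurableSet_le (by fun_prop) (by fun_prop)) (by fun_prop)
      measurable_const
  have e2 : Bil1 (fun z => F z.swap) (fun z => H (z.2.1, z.1, z.2.2)) =
      ∫⁻ y, ∫⁻ x, B y x := by
    unfold Bil1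
    rw [← swap2 (fun y => ∫⁻ x, B y x)]
    refine lintegral_congr fun y => ?_
    rw [← swap2 (fun x => B y.swap x)]
    refine lintegral_congr fun x => ?_
    simp only [hB, Prod.fst_swap, Prod.snd_swap]
    have e3 : x.1 ^ 2 + x.2 ^ 2 - (y.1 ^ 2 + y.2 ^ 2) = x.2 ^ 2 + x.1 ^ 2 - (y.2 ^ 2 + y.1 ^ 2) := by
      ring
    rw [e3]
  have hA1 : ∀ y, Measurable (A y) := fun y => hAm.comp measurable_prodMk_left
  have hA2 : Measurable fun y => ∫⁻ x, A y x := hAm.lintegral_prod_right'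
  rw [e2]
  have e1 : Bil1 F H = ∫⁻ y, ∫⁻ x, A y x := rfl
  rw [e1, ← lintegral_add_left hA2]
  unfold Bil
  refine lintegral_mono fun y => ?_
  rw [← lintegral_add_left (hA1 y)]
  refine lintegral_mono fun x => ?_
  simp only [hA, hB]
  rcases le_total |x.2 - y.2| |x.1 - y.1| with h | h
  · rw [if_pos h]
    exact le_self_add
  · exact le_add_left (le_of_eq (if_pos h).symm)

/-- the constant for `q ≤ 4` -/
noncomputable def Cq (q : ℝ) : ℝ≥0∞ :=
  Cs q ^ ((q - 2) / q) * (8 ^ (1 - q / (q - 2) / 3)) ^ ((q - 2) / q) * Cr (q / 2) ^ (1 / 3 : ℝ)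

theorem Cq_ne (q : ℝ) (hq : 3 < q) (hq4 : q ≤ 4) : Cq q ≠ ∞ := by
  have h2 : 0 < q - 2 := by linarith
  have h0 : 0 < q := by linarith
  unfold Cq
  refine ENNReal.mul_ne_top (ENNReal.mul_ne_top ?_ ?_) ?_
  · exact ENNReal.rpow_ne_top_of_nonneg (by positivity) (Cs_ne q hq)
  · refine ENNReal.rpow_ne_top_of_nonneg (by positivity)
      (ENNReal.rpow_ne_top_of_nonneg ?_ (by norm_num))
    have : q / (q - 2) / 3 ≤ 1 := by
      rw [div_div, div_le_one (by positivity)]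
      linarith
    linarith
  · exact ENNReal.rpow_ne_top_of_nonneg (by norm_num) (Cr_ne _ (by linarith) (by linarith))

theorem bil1_all (q : ℝ) (hq : 3 < q) (hq4 : q ≤ 4) (F : ℝ × ℝ → ℝ≥0∞) (H : ℝ × ℝ × ℝ → ℝ≥0∞)
    (hF : Measurable F) (hH : Measurable H) (hs : ∀ x, (1 < |x.1| ∨ 1 < |x.2|) → F x = 0) :
    Bil1 F H ≤ Cq q * ((∫⁻ z, F z ^ q) ^ (2 / q) * (∫⁻ z, H z ^ (q / 2)) ^ (2 / q)) := by
  have h2 : 0 < q - 2 := by linarith
  have h0 : 0 < q := by linarith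
  have hs2 : ∀ x : ℝ × ℝ, (1 < |x.1| ∨ 1 < |x.2|) → F x ^ 2 = 0 := by
    intro x hx
    rw [hs x hx]; simp
  have hσ0 : 0 < q / (q - 2) := by positivity
  have hσ3 : q / (q - 2) ≤ 3 := by
    rw [div_le_iff₀ h2]; linarith
  have h1 := bil1_le q hq hq4 F H hF hH hs
  have h3 := lower (q / (q - 2)) hσ0 hσ3 (fun z => F z ^ 2) (hF.pow_const 2) hs2
  have h4 := radon (q / 2) (by linarith) (by linarith) (fun z => F z ^ 2) (hF.pow_const 2) hs2
  have e1 : ∀ z, (F z ^ 2) ^ (q / 2) = F z ^ q := by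
    intro z
    rw [← ENNReal.rpow_natCast, ← ENNReal.rpow_mul]
    congr 1
    push_cast
    ring
  simp_rw [e1] at h4
  have e2 : (3 : ℝ) / (q / 2) = 6 / q := by field_simp; norm_num
  rw [e2] at h4
  have hpos : 0 ≤ (q - 2) / q := by positivity
  refine h1.trans ?_
  rw [← mul_assoc]
  refine mul_le_mul' ?_ le_rfl
  rw [ENNReal.mul_rpow_of_nonneg _ _ hpos]
  calc Cs q ^ ((q - 2) / q) * (∫⁻ θ in Icc (-1 : ℝ) 1, ∫⁻ α,
        RR (fun z => F z ^ 2) θ α ^ (q / (q - 2))) ^ ((q - 2) / q)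
      ≤ Cs q ^ ((q - 2) / q) * (8 ^ (1 - q / (q - 2) / 3) *
        (Cr (q / 2) * (∫⁻ z, F z ^ q) ^ (6 / q)) ^ (q / (q - 2) / 3)) ^ ((q - 2) / q) := by
        refine mul_le_mul' le_rfl (ENNReal.rpow_le_rpow (h3.trans ?_) hpos)
        exact mul_le_mul' le_rfl (ENNReal.rpow_le_rpow h4 (by positivity))
    _ = Cq q * (∫⁻ z, F z ^ q) ^ (2 / q) := by
        unfold Cq
        rw [ENNReal.mul_rpow_of_nonneg _ _ hpos, ← ENNReal.rpow_mul (Cr (q / 2) * _)]
        have e3 : q / (q - 2) / 3 * ((q - 2) / q) = 1 / 3 := by field_simp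
        rw [e3, ENNReal.mul_rpow_of_nonneg _ _ (by norm_num), ← ENNReal.rpow_mul (∫⁻ z, F z ^ q)]
        have e4 : 6 / q * (1 / 3) = 2 / q := by ring
        rw [e4]
        ring

theorem bil_four (q : ℝ) (hq : 3 < q) (hq4 : q ≤ 4) (F : ℝ × ℝ → ℝ≥0∞) (H : ℝ × ℝ × ℝ → ℝ≥0∞)
    (hF : Measurable F) (hH : Measurable H) (hs : ∀ x, (1 < |x.1| ∨ 1 < |x.2|) → F x = 0) :
    Bil F H ≤ 2 * Cq q * ((∫⁻ z, F z ^ q) ^ (2 / q) * (∫⁻ z, H z ^ (q / 2)) ^ (2 / q)) := by
  refine (Bil_split F H hF hH).trans ?_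
  have h1 := bil1_all q hq hq4 F H hF hH hs
  have h2 := bil1_all q hq hq4 (fun z => F z.swap) (fun z => H (z.2.1, z.1, z.2.2))
    (hF.comp measurable_swap) (by fun_prop) (fun x hx => hs _ (by
      rw [Prod.fst_swap, Prod.snd_swap]; exact hx.symm))
  rw [swap2 (fun z => F z ^ q), swap3 (fun z => H z ^ (q / 2)) (hH.pow_const _)] at h2
  refine (add_le_add h1 h2).trans (le_of_eq ?_)
  ring

/-- all `q > 3` -/
theorem bil (q : ℝ) (hq : 3 < q) : ∃ C : ℝ≥0∞, C ≠ ∞ ∧ ∀ (F : ℝ × ℝ → ℝ≥0∞)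
    (H : ℝ × ℝ × ℝ → ℝ≥0∞), Measurable F → Measurable H →
    (∀ x, (1 < |x.1| ∨ 1 < |x.2|) → F x = 0) →
    Bil F H ≤ C * ((∫⁻ z, F z ^ q) ^ (2 / q) * (∫⁻ z, H z ^ (q / 2)) ^ (2 / q)) := by
  rcases le_total q 4 with hq4 | hq4
  · exact ⟨2 * Cq q, ENNReal.mul_ne_top (by norm_num) (Cq_ne q hq hq4), fun F H hF hH hs =>
      bil_four q hq hq4 F H hF hH hs⟩
  · have hq0 : 0 < q := by linarith
    set S : Set (ℝ × ℝ) := Icc (-1) 1 ×ˢ Icc (-1) 1 with hS
    set K : Set (ℝ × ℝ × ℝ) := Icc (-2) 2 ×ˢ (Icc (-2) 2 ×ˢ Icc (-2) 2) with hK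
    have hSm : MeasurableSet S := measurableSet_Icc.prod measurableSet_Icc
    have hKm : MeasurableSet K := measurableSet_Icc.prod (measurableSet_Icc.prod measurableSet_Icc)
    have hSv : volume S ≠ ∞ := by
      rw [hS, Measure.volume_eq_prod, Measure.prod_prod, Real.volume_Icc]
      exact ENNReal.mul_ne_top ENNReal.ofReal_ne_top ENNReal.ofReal_ne_top
    have hKv : volume K ≠ ∞ := by
      rw [hK, Measure.volume_eq_prod, Measure.prod_prod, Measure.volume_eq_prod, Measure.prod_prod,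
        Real.volume_Icc]
      exact ENNReal.mul_ne_top ENNReal.ofReal_ne_top
        (ENNReal.mul_ne_top ENNReal.ofReal_ne_top ENNReal.ofReal_ne_top)
    have ht : 0 < 4 / q := by positivity
    have ht1 : 4 / q ≤ 1 := by rw [div_le_one hq0]; exact hq4
    refine ⟨2 * Cq 4 * ((volume S ^ (1 - 4 / q)) ^ (1 / 2 : ℝ) *
      (volume K ^ (1 - 4 / q)) ^ (1 / 2 : ℝ)), ?_, ?_⟩
    · refine ENNReal.mul_ne_top (ENNReal.mul_ne_top (by norm_num)
        (Cq_ne 4 (by norm_num) (by norm_num))) (ENNReal.mul_ne_top ?_ ?_)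
      · exact ENNReal.rpow_ne_top_of_nonneg (by norm_num)
          (ENNReal.rpow_ne_top_of_nonneg (by linarith) hSv)
      · exact ENNReal.rpow_ne_top_of_nonneg (by norm_num)
          (ENNReal.rpow_ne_top_of_nonneg (by linarith) hKv)
    · intro F H hF hH hs
      have hsupp : ∀ x, F x ≠ 0 → |x.1| ≤ 1 ∧ |x.2| ≤ 1 := by
        intro x hx
        constructor
        · by_contra hc
          exact hx (hs x (Or.inl (not_le.1 hc)))
        · by_contra hc
          exact hx (hs x (Or.inr (not_le.1 hc)))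
      have h1 : Bil F H ≤ Bil F (K.indicator H) := by
        unfold Bil
        refine lintegral_mono fun y => lintegral_mono fun x => ?_
        by_cases hx : F x = 0
        · simp [hx]
        by_cases hy : F y = 0
        · simp [hy]
        refine mul_le_mul' le_rfl ?_
        obtain ⟨x1, x2⟩ := hsupp x hx
        obtain ⟨y1, y2⟩ := hsupp y hy
        rw [abs_le] at x1 x2 y1 y2
        rw [indicator_of_mem]
        refine ⟨⟨by simp only; linarith, by simp only; linarith⟩,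
          ⟨by simp only; linarith, by simp only; linarith⟩, ?_, ?_⟩
        · simp only
          nlinarith [sq_nonneg x.1, sq_nonneg x.2]
        · simp only
          nlinarith [sq_nonneg y.1, sq_nonneg y.2]
      have h2 := bil_four 4 (by norm_num) (by norm_num) F (K.indicator H) hF (hH.indicator hKm) hs
      refine h1.trans (h2.trans ?_)
      have hF4 : ∫⁻ z, F z ^ (4 : ℝ) ≤ volume S ^ (1 - 4 / q) * (∫⁻ z, F z ^ q) ^ (4 / q) := by
        have a1 : ∫⁻ z, F z ^ (4 : ℝ) ≤ ∫⁻ z in S, (F z ^ q) ^ (4 / q) := by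
          rw [← lintegral_indicator hSm]
          refine lintegral_mono fun z => ?_
          by_cases hz : F z = 0
          · rw [hz, ENNReal.zero_rpow_of_pos (by norm_num)]; exact zero_le
          · obtain ⟨z1, z2⟩ := hsupp z hz
            rw [abs_le] at z1 z2
            rw [indicator_of_mem (show z ∈ S from ⟨z1, z2⟩), ← ENNReal.rpow_mul]
            refine le_of_eq ?_
            congr 1
            field_simp
        refine a1.trans ((jens _ _ (hF.pow_const q) _ ht ht1).trans ?_)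
        rw [Measure.restrict_apply_univ]
        exact mul_le_mul' le_rfl (ENNReal.rpow_le_rpow (setLIntegral_le_lintegral _ _) ht.le)
      have hH2 : ∫⁻ z, (K.indicator H z) ^ (4 / 2 : ℝ) ≤
          volume K ^ (1 - 4 / q) * (∫⁻ z, H z ^ (q / 2)) ^ (4 / q) := by
        have a1 : ∫⁻ z, (K.indicator H z) ^ (4 / 2 : ℝ) ≤ ∫⁻ z in K, (H z ^ (q / 2)) ^ (4 / q) := by
          rw [← lintegral_indicator hKm]
          refine lintegral_mono fun z => ?_
          by_cases hz : z ∈ K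
          · rw [indicator_of_mem hz, indicator_of_mem hz, ← ENNReal.rpow_mul]
            refine le_of_eq ?_
            congr 1
            field_simp
          · rw [indicator_of_notMem hz, indicator_of_notMem hz,
              ENNReal.zero_rpow_of_pos (by norm_num)]
        refine a1.trans ((jens _ _ (hH.pow_const _) _ ht ht1).trans ?_)
        rw [Measure.restrict_apply_univ]
        exact mul_le_mul' le_rfl (ENNReal.rpow_le_rpow (setLIntegral_le_lintegral _ _) ht.le)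
      have e1 : (2 / 4 : ℝ) = 1 / 2 := by norm_num
      rw [e1]
      calc 2 * Cq 4 * ((∫⁻ z, F z ^ (4 : ℝ)) ^ (1 / 2 : ℝ) *
            (∫⁻ z, (K.indicator H z) ^ (4 / 2 : ℝ)) ^ (1 / 2 : ℝ))
          ≤ 2 * Cq 4 * ((volume S ^ (1 - 4 / q) * (∫⁻ z, F z ^ q) ^ (4 / q)) ^ (1 / 2 : ℝ) *
            (volume K ^ (1 - 4 / q) * (∫⁻ z, H z ^ (q / 2)) ^ (4 / q)) ^ (1 / 2 : ℝ)) := by
            gcongr
        _ = _ := by
            rw [ENNReal.mul_rpow_of_nonneg _ _ (by norm_num),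
              ENNReal.mul_rpow_of_nonneg _ _ (by norm_num), ← ENNReal.rpow_mul (∫⁻ z, F z ^ q),
              ← ENNReal.rpow_mul (∫⁻ z, H z ^ (q / 2))]
            have e2 : 4 / q * (1 / 2) = 2 / q := by ring
            rw [e2]
            ring

end Pool.Agent.N248.LQ
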