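import Mathlib
import Pool.Agent.N248.SD.G
import Pool.Agent.H153R4.Pl
set_option autoImplicit false

/-! The Hausdorff-Young inequality (with a constant) for measures with density. -/

namespace Pool.Agent.N248.LQ

open MeasureTheory Set Metric Complex FourierTransform
open scoped ENNReal RealInnerProductSpace
open Pool.Agent.R412.RT (ee ee_norm ee_cont ee_meas ee_add ee_conj)
open Pool.Agent.N248.SD (fm)

variable {N : ℕ}

/-- the Fourier transform of the measure with density `g` -/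
noncomputable def fd (g : EuclideanSpace ℝ (Fin N) → ℝ≥0∞) (η : EuclideanSpace ℝ (Fin N)) : ℂ := fm (volume.withDensity g) η

theorem fin_wd (g : EuclideanSpace ℝ (Fin N) → ℝ≥0∞) (h1 : ∫⁻ x, g x ≠ ∞) :
    IsFiniteMeasure ((volume : Measure (EuclideanSpace ℝ (Fin N))).withDensity g) := isFiniteMeasure_withDensity h1

theorem fd_sup (g : EuclideanSpace ℝ (Fin N) → ℝ≥0∞) (η : EuclideanSpace ℝ (Fin N)) : ‖fd g η‖ₑ ≤ ∫⁻ x, g x := by
  unfold fd fm
  refine (enorm_integral_le_lintegral_enorm _).trans ?_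
  have : ∀ w : EuclideanSpace ℝ (Fin N), ‖ee ⟪η, w⟫‖ₑ = 1 := by
    intro w
    rw [← ofReal_norm, ee_norm, ENNReal.ofReal_one]
  simp_rw [this]
  rw [lintegral_const, one_mul, withDensity_apply _ MeasurableSet.univ, Measure.restrict_univ]

theorem fd_norm (g : EuclideanSpace ℝ (Fin N) → ℝ≥0∞) (hg : Measurable g) (h1 : ∫⁻ x, g x ≠ ∞) (η : EuclideanSpace ℝ (Fin N)) :
    ‖fd g η‖ₑ = ‖𝓕 (fun w : EuclideanSpace ℝ (Fin N) => ((g w).toReal : ℂ)) η‖ₑ := by
  have hfin : ∀ᵐ x : EuclideanSpace ℝ (Fin N), g x < ∞ := ae_lt_top hg h1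
  have e1 : fd g η = (starRingEnd ℂ) (𝓕 (fun w : EuclideanSpace ℝ (Fin N) => ((g w).toReal : ℂ)) η) := by
    unfold fd fm
    rw [integral_withDensity_eq_integral_toReal_smul hg hfin, Real.fourier_eq', ← integral_conj]
    refine integral_congr_ae (Filter.Eventually.of_forall fun w => ?_)
    simp only
    rw [smul_eq_mul, map_mul, Complex.conj_ofReal, ← Complex.exp_conj, Complex.real_smul, mul_comm]
    congr 1
    unfold ee
    congr 1
    rw [map_mul, Complex.conj_I, Complex.conj_ofReal, real_inner_comm]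
    push_cast
    ring
  rw [e1, ← ofReal_norm, Complex.norm_conj, ofReal_norm]

theorem memLp_two (g : EuclideanSpace ℝ (Fin N) → ℝ≥0∞) (hg : Measurable g) (h2 : ∫⁻ x, g x ^ 2 ≠ ∞) :
    MemLp (fun w : EuclideanSpace ℝ (Fin N) => ((g w).toReal : ℂ)) 2 := by
  refine ⟨(Complex.measurable_ofReal.comp hg.ennreal_toReal).aestronglyMeasurable, ?_⟩
  rw [eLpNorm_lt_top_iff_lintegral_rpow_enorm_lt_top (by norm_num) (by norm_num)]
  refine lt_of_le_of_lt (lintegral_mono fun x => ?_) h2.lt_top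
  simp only [ENNReal.toReal_ofNat, ENNReal.rpow_ofNat]
  refine pow_le_pow_left' ?_ 2
  rw [← ofReal_norm, Complex.norm_real, Real.norm_of_nonneg ENNReal.toReal_nonneg]
  exact ENNReal.ofReal_toReal_le

theorem integ (g : EuclideanSpace ℝ (Fin N) → ℝ≥0∞) (hg : Measurable g) (h1 : ∫⁻ x, g x ≠ ∞) :
    Integrable (fun w : EuclideanSpace ℝ (Fin N) => ((g w).toReal : ℂ)) :=
  (integrable_toReal_of_lintegral_ne_top hg.aemeasurable h1).ofReal

theorem fd_sq (g : EuclideanSpace ℝ (Fin N) → ℝ≥0∞) (hg : Measurable g) (h1 : ∫⁻ x, g x ≠ ∞) (h2 : ∫⁻ x, g x ^ 2 ≠ ∞) :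
    ∫⁻ η, ‖fd g η‖ₑ ^ 2 ≤ ∫⁻ x, g x ^ 2 := by
  simp_rw [fd_norm g hg h1]
  rw [Pool.Agent.H153R4.plancherel _ (integ g hg h1) (memLp_two g hg h2)]
  refine lintegral_mono fun x => ?_
  refine pow_le_pow_left' ?_ 2
  rw [← ofReal_norm, Complex.norm_real, Real.norm_of_nonneg ENNReal.toReal_nonneg]
  exact ENNReal.ofReal_toReal_le

theorem fd_meas (g : EuclideanSpace ℝ (Fin N) → ℝ≥0∞) (h1 : ∫⁻ x, g x ≠ ∞) : Measurable (fd g) := by
  have : IsFiniteMeasure ((volume : Measure (EuclideanSpace ℝ (Fin N))).withDensity g) := fin_wd g h1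
  have hm : StronglyMeasurable fun z : EuclideanSpace ℝ (Fin N) × EuclideanSpace ℝ (Fin N) => ee ⟪z.1, z.2⟫ :=
    (ee_meas.comp (Measurable.inner measurable_fst measurable_snd)).stronglyMeasurable
  exact (hm.integral_prod_right' (ν := (volume : Measure (EuclideanSpace ℝ (Fin N))).withDensity g)).measurable

theorem fd_add (g h : EuclideanSpace ℝ (Fin N) → ℝ≥0∞) (hg : Measurable g) (h1 : ∫⁻ x, g x ≠ ∞) (h2 : ∫⁻ x, h x ≠ ∞)
    (η : EuclideanSpace ℝ (Fin N)) : fd (g + h) η = fd g η + fd h η := by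
  have : IsFiniteMeasure ((volume : Measure (EuclideanSpace ℝ (Fin N))).withDensity g) := fin_wd g h1
  have : IsFiniteMeasure ((volume : Measure (EuclideanSpace ℝ (Fin N))).withDensity h) := fin_wd h h2
  unfold fd fm
  have hb : ∀ μ : Measure (EuclideanSpace ℝ (Fin N)), IsFiniteMeasure μ → Integrable (fun w => ee ⟪η, w⟫) μ := by
    intro μ _
    refine Integrable.of_bound (C := 1) ?_ (Filter.Eventually.of_forall fun w => (ee_norm _).le)
    exact (ee_meas.comp (Measurable.inner measurable_const measurable_id)).aestronglyMeasurable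
  rw [withDensity_add_left hg, integral_add_measure (hb _ ‹_›) (hb _ ‹_›)]

theorem power_int (c : ℝ) (hc : -1 < c) (T : ℝ) (hT : 0 ≤ T) :
    ∫⁻ t in Ioc 0 T, ENNReal.ofReal (t ^ c) = ENNReal.ofReal (T ^ (c + 1) / (c + 1)) := by
  have h := intervalIntegral.intervalIntegrable_rpow' (a := 0) (b := T) hc
  rw [intervalIntegrable_iff_integrableOn_Ioc_of_le hT] at h
  rw [← ofReal_integral_eq_lintegral_ofReal h]
  · rw [← intervalIntegral.integral_of_le hT, integral_rpow (Or.inl hc), Real.zero_rpow (by linarith),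
      sub_zero]
  · rw [Filter.EventuallyLE, ae_restrict_iff' measurableSet_Ioc]
    exact Filter.Eventually.of_forall fun t ht => Real.rpow_nonneg ht.1.le _

/-- the constant -/
noncomputable def CH (q : ℝ) : ℝ := q * (4 * (2 ^ (q - 2) / (q - 2)))

/-- Hausdorff-Young -/
theorem hy (q : ℝ) (hq : 2 < q) (g : EuclideanSpace ℝ (Fin N) → ℝ≥0∞) (hg : Measurable g) (hgf : ∀ x, g x ≠ ∞)
    (h1 : ∫⁻ x, g x ≠ ∞) (h2 : ∫⁻ x, g x ^ 2 ≠ ∞) (hp : ∫⁻ x, g x ^ (q / (q - 1)) ≠ ∞) :
    ∫⁻ η, ‖fd g η‖ₑ ^ q ≤ ENNReal.ofReal (CH q) * (∫⁻ x, g x ^ (q / (q - 1))) ^ (q - 1) := by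
  have hq0 : 0 < q := by linarith
  have hq1 : 0 < q - 1 := by linarith
  have hq2 : 0 < q - 2 := by linarith
  set p : ℝ := q / (q - 1) with hpd
  have hp1 : p - 1 = 1 / (q - 1) := by rw [hpd]; field_simp; ring
  have hp0 : 0 < p := by positivity
  have hp10 : 0 < p - 1 := by rw [hp1]; positivity
  rcases eq_or_ne (∫⁻ x, g x ^ p) 0 with h0 | h0
  · -- trivial case
    have hz : ∫⁻ x, g x = 0 := by
      rw [lintegral_eq_zero_iff hg]
      have := (lintegral_eq_zero_iff (hg.pow_const p)).1 h0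
      filter_upwards [this] with x hx
      simp only [Pi.zero_apply] at hx ⊢
      rw [ENNReal.rpow_eq_zero_iff] at hx
      rcases hx with hx | hx
      · exact hx.1
      · exact absurd hx.1 (hgf x)
    have : ∀ η, ‖fd g η‖ₑ = 0 := by
      intro η
      have := fd_sup g η
      rw [hz] at this
      exact le_antisymm this zero_le
    simp_rw [this]
    rw [ENNReal.zero_rpow_of_pos hq0, lintegral_zero]
    exact zero_le
  set G : ℝ := (∫⁻ x, g x ^ p).toReal with hG
  have hG0 : 0 < G := ENNReal.toReal_pos h0 hp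
  have hGe : ∫⁻ x, g x ^ p = ENNReal.ofReal G := (ENNReal.ofReal_toReal hp).symm
  -- layer cake
  have hfm := fd_meas g h1
  have hL := lintegral_rpow_eq_lintegral_meas_lt_mul (volume : Measure (EuclideanSpace ℝ (Fin N)))
    (f := fun η => ‖fd g η‖) (Filter.Eventually.of_forall fun η => norm_nonneg _)
    hfm.norm.aemeasurable hq0
  have e1 : ∀ η, ‖fd g η‖ₑ ^ q = ENNReal.ofReal (‖fd g η‖ ^ q) := by
    intro η
    rw [← ofReal_norm, ENNReal.ofReal_rpow_of_nonneg (norm_nonneg _) hq0.le]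
  simp_rw [e1]
  rw [hL]
  -- the low set
  set L : ℝ → Set (EuclideanSpace ℝ (Fin N)) := fun t => {x | t * (g x).toReal ^ (p - 1) ≤ 2 * G} with hLd
  have hLm : ∀ t, MeasurableSet (L t) := fun t => measurableSet_le (by fun_prop) measurable_const
  have hdist : ∀ t : ℝ, 0 < t → volume {η : EuclideanSpace ℝ (Fin N) | t < ‖fd g η‖} * ENNReal.ofReal (t ^ (q - 1)) ≤
      ∫⁻ x, 4 * (g x ^ 2 * (L t).indicator (fun _ => ENNReal.ofReal (t ^ (q - 3))) x) := by
    intro t ht
    set gl : EuclideanSpace ℝ (Fin N) → ℝ≥0∞ := (L t).indicator g with hgl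
    set gh : EuclideanSpace ℝ (Fin N) → ℝ≥0∞ := (L t)ᶜ.indicator g with hgh
    have hglm : Measurable gl := hg.indicator (hLm t)
    have hghm : Measurable gh := hg.indicator (hLm t).compl
    have hsum : g = gl + gh := by rw [hgl, hgh, indicator_self_add_compl]
    have hgl_le : ∀ x, gl x ≤ g x := fun x => indicator_le_self _ _ x
    have hgh_le : ∀ x, gh x ≤ g x := fun x => indicator_le_self _ _ x
    have hgl1 : ∫⁻ x, gl x ≠ ∞ := ne_top_of_le_ne_top h1 (lintegral_mono hgl_le)
    have hgh1 : ∫⁻ x, gh x ≠ ∞ := ne_top_of_le_ne_top h1 (lintegral_mono hgh_le)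
    have hgl2 : ∫⁻ x, gl x ^ 2 ≠ ∞ := ne_top_of_le_ne_top h2
      (lintegral_mono fun x => pow_le_pow_left' (hgl_le x) 2)
    -- the high part
    have hhigh : ∫⁻ x, gh x ≤ ENNReal.ofReal (t / 2) := by
      have a1 : ∀ x, gh x ≤ ENNReal.ofReal (t / (2 * G)) * g x ^ p := by
        intro x
        by_cases hx : x ∈ (L t)ᶜ
        · rw [hgh, indicator_of_mem hx]
          have hx' : 2 * G < t * (g x).toReal ^ (p - 1) := not_le.1 hx
          have hγ : g x = ENNReal.ofReal (g x).toReal := (ENNReal.ofReal_toReal (hgf x)).symm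
          set γ : ℝ := (g x).toReal with hγd
          have hγ0 : 0 < γ := by
            rcases ENNReal.toReal_nonneg.eq_or_lt with h | h
            · rw [← hγd] at h
              rw [← h, Real.zero_rpow hp10.ne', mul_zero] at hx'
              linarith
            · exact h
          rw [hγ, ENNReal.ofReal_rpow_of_pos hγ0, ← ENNReal.ofReal_mul (by positivity)]
          refine ENNReal.ofReal_le_ofReal ?_
          have e2 : γ ^ p = γ ^ (p - 1) * γ := by
            rw [Real.rpow_sub_one hγ0.ne']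
            field_simp
          rw [e2, div_mul_eq_mul_div, le_div_iff₀ (by positivity)]
          nlinarith [mul_le_mul_of_nonneg_right hx'.le hγ0.le]
        · rw [hgh, indicator_of_notMem hx]
          exact zero_le
      refine (lintegral_mono a1).trans ?_
      rw [lintegral_const_mul _ (hg.pow_const p), hGe, ← ENNReal.ofReal_mul (by positivity)]
      refine ENNReal.ofReal_le_ofReal (le_of_eq ?_)
      field_simp
    -- the level set
    have hsub : {η : EuclideanSpace ℝ (Fin N) | t < ‖fd g η‖} ⊆ {η : EuclideanSpace ℝ (Fin N) | ENNReal.ofReal (t ^ 2 / 4) ≤ ‖fd gl η‖ₑ ^ 2} := by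
      intro η hη
      have hη' : t < ‖fd g η‖ := hη
      have b1 : ‖fd gh η‖ ≤ t / 2 := by
        have := (fd_sup gh η).trans hhigh
        rw [← ofReal_norm, ENNReal.ofReal_le_ofReal_iff (by positivity)] at this
        exact this
      have b2 : ‖fd g η‖ ≤ ‖fd gl η‖ + ‖fd gh η‖ := by
        have := fd_add gl gh hglm hgl1 hgh1 η
        rw [← hsum] at this
        rw [this]
        exact norm_add_le _ _
      have b3 : t / 2 ≤ ‖fd gl η‖ := by linarith
      show ENNReal.ofReal (t ^ 2 / 4) ≤ ‖fd gl η‖ₑ ^ 2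
      rw [← ofReal_norm, ← ENNReal.ofReal_pow (norm_nonneg _)]
      refine ENNReal.ofReal_le_ofReal ?_
      nlinarith
    have hch := mul_meas_ge_le_lintegral₀ (μ := (volume : Measure (EuclideanSpace ℝ (Fin N))))
      (f := fun η => ‖fd gl η‖ₑ ^ 2) ((fd_meas gl hgl1).enorm.pow_const 2).aemeasurable
      (ENNReal.ofReal (t ^ 2 / 4))
    have hc2 := (mul_le_mul' (le_refl (ENNReal.ofReal (t ^ 2 / 4))) (measure_mono hsub)).trans
      (hch.trans (fd_sq gl hglm hgl1 hgl2))
    have ht2 : ENNReal.ofReal (t ^ (q - 1)) = 4 * ENNReal.ofReal (t ^ (q - 3)) *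
        ENNReal.ofReal (t ^ 2 / 4) := by
      have h4 : (4 : ℝ≥0∞) = ENNReal.ofReal 4 := by norm_num
      rw [h4, ← ENNReal.ofReal_mul (by norm_num), ← ENNReal.ofReal_mul (by positivity)]
      congr 1
      have : t ^ (q - 1) = t ^ (q - 3) * t ^ 2 := by
        rw [← Real.rpow_natCast, ← Real.rpow_add ht]
        congr 1
        push_cast
        ring
      rw [this]
      ring
    calc volume {η : EuclideanSpace ℝ (Fin N) | t < ‖fd g η‖} * ENNReal.ofReal (t ^ (q - 1))
        = 4 * ENNReal.ofReal (t ^ (q - 3)) *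
          (ENNReal.ofReal (t ^ 2 / 4) * volume {η : EuclideanSpace ℝ (Fin N) | t < ‖fd g η‖}) := by rw [ht2]; ring
      _ ≤ 4 * ENNReal.ofReal (t ^ (q - 3)) * ∫⁻ x, gl x ^ 2 := mul_le_mul' le_rfl hc2
      _ = ∫⁻ x, 4 * (g x ^ 2 * (L t).indicator (fun _ => ENNReal.ofReal (t ^ (q - 3))) x) := by
          rw [← lintegral_const_mul _ (hglm.pow_const 2)]
          refine lintegral_congr fun x => ?_
          by_cases hx : x ∈ L t
          · rw [hgl, indicator_of_mem hx, indicator_of_mem hx]; ring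
          · rw [hgl, indicator_of_notMem hx, indicator_of_notMem hx]; simp
  have hmain : ∫⁻ t in Ioi (0 : ℝ), volume {η : EuclideanSpace ℝ (Fin N) | t < ‖fd g η‖} * ENNReal.ofReal (t ^ (q - 1)) ≤
      ∫⁻ t in Ioi (0 : ℝ), ∫⁻ x,
        4 * (g x ^ 2 * (L t).indicator (fun _ => ENNReal.ofReal (t ^ (q - 3))) x) :=
    setLIntegral_mono' measurableSet_Ioi fun t ht => hdist t ht
  have hjm : Measurable fun z : ℝ × EuclideanSpace ℝ (Fin N) =>
      4 * (g z.2 ^ 2 * (L z.1).indicator (fun _ => ENNReal.ofReal (z.1 ^ (q - 3))) z.2) := by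
    have hS : MeasurableSet {z : ℝ × EuclideanSpace ℝ (Fin N) | z.1 * (g z.2).toReal ^ (p - 1) ≤ 2 * G} :=
      measurableSet_le (by fun_prop) measurable_const
    have : (fun z : ℝ × EuclideanSpace ℝ (Fin N) =>
        4 * (g z.2 ^ 2 * (L z.1).indicator (fun _ => ENNReal.ofReal (z.1 ^ (q - 3))) z.2)) =
        fun z : ℝ × EuclideanSpace ℝ (Fin N) => 4 * (g z.2 ^ 2 * {z : ℝ × EuclideanSpace ℝ (Fin N) | z.1 * (g z.2).toReal ^ (p - 1) ≤
          2 * G}.indicator (fun z => ENNReal.ofReal (z.1 ^ (q - 3))) z) := by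
      ext z
      by_cases hz : z.2 ∈ L z.1
      · rw [indicator_of_mem hz, indicator_of_mem (by exact hz)]
      · rw [indicator_of_notMem hz, indicator_of_notMem (by exact hz)]
    rw [this]
    have hm1 : Measurable ({z : ℝ × EuclideanSpace ℝ (Fin N) | z.1 * (g z.2).toReal ^ (p - 1) ≤
          2 * G}.indicator (fun z => ENNReal.ofReal (z.1 ^ (q - 3)))) :=
      Measurable.indicator (by fun_prop) hS
    exact ((hg.comp measurable_snd).pow_const 2).mul hm1 |>.const_mul 4
  rw [lintegral_lintegral_swap (μ := volume.restrict (Ioi (0 : ℝ))) hjm.aemeasurable] at hmain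
  refine (mul_le_mul' le_rfl hmain).trans ?_
  have hx : ∀ x, ∫⁻ t in Ioi (0 : ℝ),
      4 * (g x ^ 2 * (L t).indicator (fun _ => ENNReal.ofReal (t ^ (q - 3))) x) ≤
      ENNReal.ofReal (4 * (2 ^ (q - 2) / (q - 2)) * G ^ (q - 2)) * g x ^ p := by
    intro x
    by_cases h00 : g x = 0
    · rw [h00]
      simp
    have hγ : g x = ENNReal.ofReal (g x).toReal := (ENNReal.ofReal_toReal (hgf x)).symm
    set γ : ℝ := (g x).toReal with hγd
    have hγ0 : 0 < γ := ENNReal.toReal_pos h00 (hgf x)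
    set T : ℝ := 2 * G / γ ^ (p - 1) with hT
    have hT0 : 0 < T := by positivity
    have c1 : ∫⁻ t in Ioi (0 : ℝ),
        4 * (g x ^ 2 * (L t).indicator (fun _ => ENNReal.ofReal (t ^ (q - 3))) x) =
        4 * (g x ^ 2 * ∫⁻ t in Ioc 0 T, ENNReal.ofReal (t ^ (q - 3))) := by
      have hsm : MeasurableSet (Ioc 0 T) := measurableSet_Ioc
      have c2 : ∀ t ∈ Ioi (0 : ℝ), 4 * (g x ^ 2 * (L t).indicator
          (fun _ => ENNReal.ofReal (t ^ (q - 3))) x) =
          4 * (g x ^ 2 * (Ioc 0 T).indicator (fun t => ENNReal.ofReal (t ^ (q - 3))) t) := by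
        intro t ht
        have hiff : x ∈ L t ↔ t ∈ Ioc 0 T := by
          have : x ∈ L t ↔ t * γ ^ (p - 1) ≤ 2 * G := Iff.rfl
          rw [this, mem_Ioc, hT, le_div_iff₀ (by positivity)]
          exact ⟨fun h => ⟨ht, h⟩, fun h => h.2⟩
        by_cases h : x ∈ L t
        · rw [indicator_of_mem h, indicator_of_mem (hiff.1 h)]
        · rw [indicator_of_notMem h, indicator_of_notMem (fun h' => h (hiff.2 h'))]
      rw [setLIntegral_congr_fun measurableSet_Ioi c2]
      have hm3 : Measurable ((Ioc 0 T).indicator (fun t : ℝ => ENNReal.ofReal (t ^ (q - 3)))) :=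
        Measurable.indicator (by fun_prop) hsm
      rw [lintegral_const_mul _ (hm3.const_mul _), lintegral_const_mul _ hm3,
        lintegral_indicator hsm, Measure.restrict_restrict hsm]
      congr 4
      ext t
      simp only [mem_inter_iff, mem_Ioc, mem_Ioi]
      tauto
    rw [c1, power_int (q - 3) (by linarith) T hT0.le, hγ, ← ENNReal.ofReal_pow hγ0.le,
      ENNReal.ofReal_rpow_of_pos hγ0]
    have h4 : (4 : ℝ≥0∞) = ENNReal.ofReal 4 := by norm_num
    rw [h4, ← ENNReal.ofReal_mul (by positivity), ← ENNReal.ofReal_mul (by norm_num),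
      ← ENNReal.ofReal_mul (by positivity)]
    refine ENNReal.ofReal_le_ofReal (le_of_eq ?_)
    have d1 : q - 3 + 1 = q - 2 := by ring
    rw [d1, hT, Real.div_rpow (by positivity) (by positivity), Real.mul_rpow (by norm_num) hG0.le,
      ← Real.rpow_mul hγ0.le]
    have d2 : γ ^ 2 / γ ^ ((p - 1) * (q - 2)) = γ ^ p := by
      rw [← Real.rpow_natCast, ← Real.rpow_sub hγ0]
      congr 1
      rw [hp1, hpd]
      push_cast
      field_simp
      ring
    rw [← d2]
    ring
  refine (mul_le_mul' le_rfl (lintegral_mono hx)).trans ?_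
  rw [lintegral_const_mul _ (hg.pow_const p), hGe, ← ENNReal.ofReal_mul (by positivity),
    ← ENNReal.ofReal_mul (by positivity), ENNReal.ofReal_rpow_of_pos hG0, CH,
    ← ENNReal.ofReal_mul (by positivity)]
  refine ENNReal.ofReal_le_ofReal (le_of_eq ?_)
  have d3 : G ^ (q - 1) = G ^ (q - 2) * G := by
    rw [← Real.rpow_add_one hG0.ne']
    congr 1
    ring
  rw [d3]
  ring

end Pool.Agent.N248.LQ
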