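import Mathlib
import Pool.Agent.N248.LQ.C
import Pool.Agent.N248.LQ.D
import Pool.Agent.N248.SD.H
set_option autoImplicit false

/-! The convolution inequality for the extension operator of the paraboloid in `ℝ³`. -/

namespace Pool.Agent.N248.LQ

open MeasureTheory Set Metric Complex
open scoped ENNReal RealInnerProductSpace ComplexConjugate
open Pool.Agent.R412.RT (ee ee_norm ee_cont ee_meas ee_add ee_conj)
open Pool.Agent.N248.SD (fm W dd Mk Tk Mk_dd dd_meas upper dbl)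

section

variable {N : ℕ} {X : Type*} [MeasurableSpace X]

/-- Cauchy-Schwarz form of the quadratic expression -/
theorem conv2 (μ : Measure X) [SFinite μ] (g h : EuclideanSpace ℝ (Fin N) → ℝ≥0∞)
    (hg : Measurable g) (hh : Measurable h) (hg1 : ∫⁻ x, g x ≠ ∞) (hh1 : ∫⁻ x, h x ≠ ∞)
    (p : X → EuclideanSpace ℝ (Fin N)) (hp : Measurable p) (φ : X → ℂ) (hφ : Measurable φ)
    (hφi : Integrable φ μ) (hWm : Measurable (W μ p φ)) :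
    ∫⁻ y, ∫⁻ w, g y * h w * ‖W μ p φ (w - y)‖ₑ ^ 2 ≤
      (∫⁻ z : X × X, ‖φ z.1‖ₑ * ‖φ z.2‖ₑ * ‖fd g (p z.1 - p z.2)‖ₑ ^ 2 ∂(μ.prod μ)) ^ (1 / 2 : ℝ) *
      (∫⁻ z : X × X, ‖φ z.1‖ₑ * ‖φ z.2‖ₑ * ‖fd h (p z.1 - p z.2)‖ₑ ^ 2 ∂(μ.prod μ)) ^
        (1 / 2 : ℝ) := by
  have hf1 := fin_wd g hg1
  have hf2 := fin_wd h hh1
  have e1 := dbl g h (fun x => ‖W μ p φ x‖ₑ ^ 2) hg hh (hWm.enorm.pow_const 2)
  rw [← e1]
  have hT : ∀ ω : EuclideanSpace ℝ (Fin N) × EuclideanSpace ℝ (Fin N),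
      W μ p φ (ω.2 - ω.1) = Tk μ (dd p) φ ω := fun ω => rfl
  simp_rw [hT]
  have h1 := upper (((volume : Measure (EuclideanSpace ℝ (Fin N))).withDensity g).prod
    ((volume : Measure (EuclideanSpace ℝ (Fin N))).withDensity h)) μ (dd p) φ (dd_meas p hp)
    (fun ω x => (ee_norm _).le) hφi
  refine h1.trans ?_
  have hgm := (fd_meas g hg1)
  have hhm := (fd_meas h hh1)
  have hA : Measurable fun z : X × X => (‖φ z.1‖ₑ * ‖φ z.2‖ₑ) ^ (1 / 2 : ℝ) *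
      ‖fd g (p z.1 - p z.2)‖ₑ := by
    refine Measurable.mul (by fun_prop) (hgm.comp ?_).enorm
    exact (hp.comp measurable_fst).sub (hp.comp measurable_snd)
  have hB : Measurable fun z : X × X => (‖φ z.1‖ₑ * ‖φ z.2‖ₑ) ^ (1 / 2 : ℝ) *
      ‖fd h (p z.1 - p z.2)‖ₑ := by
    refine Measurable.mul (by fun_prop) (hhm.comp ?_).enorm
    exact (hp.comp measurable_fst).sub (hp.comp measurable_snd)
  have hcs := ENNReal.lintegral_mul_le_Lp_mul_Lq (μ.prod μ) Real.HolderConjugate.two_two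
    hA.aemeasurable hB.aemeasurable
  have hsq : ∀ t : ℝ≥0∞, t ^ (1 / 2 : ℝ) * t ^ (1 / 2 : ℝ) = t := by
    intro t
    rw [← ENNReal.rpow_add_of_nonneg _ _ (by norm_num) (by norm_num)]
    have : (1 / 2 + 1 / 2 : ℝ) = 1 := by norm_num
    rw [this, ENNReal.rpow_one]
  refine le_trans (le_of_eq ?_) (hcs.trans (le_of_eq ?_))
  · refine lintegral_congr fun z => ?_
    rw [Mk_dd, enorm_mul, ← ofReal_norm (conj _), Complex.norm_conj, ofReal_norm, Pi.mul_apply]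
    have := hsq (‖φ z.1‖ₑ * ‖φ z.2‖ₑ)
    calc ‖φ z.1‖ₑ * ‖φ z.2‖ₑ * (‖fm (volume.withDensity g) (p z.1 - p z.2)‖ₑ *
          ‖fm (volume.withDensity h) (p z.1 - p z.2)‖ₑ)
        = ((‖φ z.1‖ₑ * ‖φ z.2‖ₑ) ^ (1 / 2 : ℝ) * (‖φ z.1‖ₑ * ‖φ z.2‖ₑ) ^ (1 / 2 : ℝ)) *
          (‖fm (volume.withDensity g) (p z.1 - p z.2)‖ₑ *
          ‖fm (volume.withDensity h) (p z.1 - p z.2)‖ₑ) := by rw [this]
      _ = _ := by unfold fd; ring
  · have e2 : ∀ (a b : ℝ≥0∞), (a ^ (1 / 2 : ℝ) * b) ^ (2 : ℝ) = a * b ^ 2 := by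
      intro a b
      rw [ENNReal.rpow_two, mul_pow]
      congr 1
      rw [sq, hsq]
    simp_rw [e2]

end

/-- the paraboloid -/
noncomputable def Ph (x : EuclideanSpace ℝ (Fin 2)) : EuclideanSpace ℝ (Fin 3) :=
  !₂[x 0, x 1, x 0 ^ 2 + x 1 ^ 2]

/-- the frequency map for the kernel `exp(-i Φ(x)·ξ)` -/
noncomputable def p3 (x : EuclideanSpace ℝ (Fin 2)) : EuclideanSpace ℝ (Fin 3) :=
  -((2 * Real.pi)⁻¹ • Ph x)

theorem Ph_meas : Measurable Ph := by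
  unfold Ph
  refine (WithLp.measurable_toLp 2 _).comp ?_
  refine measurable_pi_iff.2 fun i => ?_
  fin_cases i
  · simp; fun_prop
  · simp; fun_prop
  · simp; fun_prop

theorem p3_meas : Measurable p3 := by
  have h : Measurable fun x : EuclideanSpace ℝ (Fin 3) => -((2 * Real.pi)⁻¹ • x) := by fun_prop
  exact h.comp Ph_meas

theorem mp2 : MeasurePreserving (fun z : ℝ × ℝ => (!₂[z.1, z.2] : EuclideanSpace ℝ (Fin 2)))
    volume volume := by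
  have h1 := (volume_preserving_finTwoArrow ℝ).symm
  have h2 := PiLp.volume_preserving_toLp (Fin 2)
  have h3 := h2.comp h1
  have e : (fun z : ℝ × ℝ => (!₂[z.1, z.2] : EuclideanSpace ℝ (Fin 2))) =
      WithLp.toLp 2 ∘ (MeasurableEquiv.finTwoArrow (α := ℝ)).symm := by
    funext z
    refine congrArg (WithLp.toLp 2) ?_
    funext i
    fin_cases i <;> rfl
  rw [e]
  exact h3

theorem int2 (f : EuclideanSpace ℝ (Fin 2) → ℝ≥0∞) (hf : Measurable f) :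
    ∫⁻ z : ℝ × ℝ, f !₂[z.1, z.2] = ∫⁻ x, f x :=
  mp2.lintegral_comp hf

theorem mp3 : MeasurePreserving
    (fun z : ℝ × ℝ × ℝ => (!₂[z.1, z.2.1, z.2.2] : EuclideanSpace ℝ (Fin 3))) volume volume := by
  have h1 := (volume_preserving_finTwoArrow ℝ).symm
  have h2 : MeasurePreserving (Prod.map id (MeasurableEquiv.finTwoArrow (α := ℝ)).symm)
      (volume : Measure (ℝ × ℝ × ℝ)) (volume : Measure (ℝ × (Fin 2 → ℝ))) :=
    (MeasurePreserving.id (volume : Measure ℝ)).prod h1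
  have h3 := (volume_preserving_piFinSuccAbove (fun _ : Fin 3 => ℝ) 0).symm
  have h4 := PiLp.volume_preserving_toLp (Fin 3)
  have h5 := h4.comp (h3.comp h2)
  have e : (fun z : ℝ × ℝ × ℝ => (!₂[z.1, z.2.1, z.2.2] : EuclideanSpace ℝ (Fin 3))) =
      WithLp.toLp 2 ∘ ((MeasurableEquiv.piFinSuccAbove (fun _ : Fin 3 => ℝ) 0).symm ∘
        Prod.map id (MeasurableEquiv.finTwoArrow (α := ℝ)).symm) := by
    funext z
    refine congrArg (WithLp.toLp 2) ?_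
    funext i
    fin_cases i <;> rfl
  rw [e]
  exact h5

theorem int3 (f : EuclideanSpace ℝ (Fin 3) → ℝ≥0∞) (hf : Measurable f) :
    ∫⁻ z : ℝ × ℝ × ℝ, f !₂[z.1, z.2.1, z.2.2] = ∫⁻ x, f x :=
  mp3.lintegral_comp hf

/-- the quadratic expression for one function -/
theorem step (q : ℝ) (hq : 3 < q) : ∃ C : ℝ≥0∞, C ≠ ∞ ∧ ∀ (φ : EuclideanSpace ℝ (Fin 2) → ℂ)
    (g : EuclideanSpace ℝ (Fin 3) → ℝ≥0∞), Measurable φ →
    (∀ x, (1 < |x 0| ∨ 1 < |x 1|) → φ x = 0) → Measurable g → (∀ x, g x ≠ ∞) →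
    ∫⁻ x, g x ≠ ∞ → ∫⁻ x, g x ^ 2 ≠ ∞ → ∫⁻ x, g x ^ (q / (q - 1)) ≠ ∞ →
    ∫⁻ z : EuclideanSpace ℝ (Fin 2) × EuclideanSpace ℝ (Fin 2), ‖φ z.1‖ₑ * ‖φ z.2‖ₑ *
        ‖fd g (p3 z.1 - p3 z.2)‖ₑ ^ 2 ≤
      C * ((∫⁻ x, ‖φ x‖ₑ ^ q) ^ (2 / q) * (∫⁻ x, g x ^ (q / (q - 1))) ^ (2 * (q - 1) / q)) := by
  have hq0 : 0 < q := by linarith
  have hq1 : 0 < q - 1 := by linarith
  obtain ⟨C, hC, hbil⟩ := bil q hq
  refine ⟨C * (ENNReal.ofReal ((2 * Real.pi) ^ 3) * ENNReal.ofReal (CH q)) ^ (2 / q), ?_, ?_⟩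
  · exact ENNReal.mul_ne_top hC (ENNReal.rpow_ne_top_of_nonneg (by positivity)
      (ENNReal.mul_ne_top ENNReal.ofReal_ne_top ENNReal.ofReal_ne_top))
  intro φ g hφ hs hg hgf h1 h2 hp
  set F : ℝ × ℝ → ℝ≥0∞ := fun z => ‖φ !₂[z.1, z.2]‖ₑ with hF
  set H : ℝ × ℝ × ℝ → ℝ≥0∞ := fun v =>
    ‖fd g (-((2 * Real.pi)⁻¹ • (!₂[v.1, v.2.1, v.2.2] : EuclideanSpace ℝ (Fin 3))))‖ₑ ^ 2 with hH
  have hFm : Measurable F := (hφ.comp mp2.measurable).enorm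
  have hfdm := fd_meas g h1
  have hsm : Measurable fun x : EuclideanSpace ℝ (Fin 3) => -((2 * Real.pi)⁻¹ • x) := by fun_prop
  have hHm : Measurable H := ((hfdm.comp (hsm.comp mp3.measurable)).enorm).pow_const 2
  have e1 : ∫⁻ z : EuclideanSpace ℝ (Fin 2) × EuclideanSpace ℝ (Fin 2), ‖φ z.1‖ₑ * ‖φ z.2‖ₑ *
        ‖fd g (p3 z.1 - p3 z.2)‖ₑ ^ 2 = Bil F H := by
    have hm : Measurable fun z : EuclideanSpace ℝ (Fin 2) × EuclideanSpace ℝ (Fin 2) =>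
        ‖φ z.1‖ₑ * ‖φ z.2‖ₑ * ‖fd g (p3 z.1 - p3 z.2)‖ₑ ^ 2 := by
      refine Measurable.mul (by fun_prop) (Measurable.pow_const (hfdm.comp ?_).enorm 2)
      exact (p3_meas.comp measurable_fst).sub (p3_meas.comp measurable_snd)
    rw [Measure.volume_eq_prod, lintegral_prod_symm _ hm.aemeasurable]
    unfold Bil
    rw [← int2 _ (hm.lintegral_prod_left')]
    refine lintegral_congr fun y => ?_
    refine Eq.trans (int2 _ (hm.comp (measurable_prodMk_right (y := !₂[y.1, y.2])))).symm ?_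
    refine lintegral_congr fun x => ?_
    simp only [Function.comp, hF, hH]
    congr 4
    unfold p3
    rw [neg_sub_neg, ← smul_sub, ← neg_sub, smul_neg]
    congr 2
    ext i
    fin_cases i <;> simp [Ph]
  have hsF : ∀ x : ℝ × ℝ, (1 < |x.1| ∨ 1 < |x.2|) → F x = 0 := by
    intro x hx
    rw [hF]
    simp only
    rw [hs _ (by simpa using hx), enorm_zero]
  have e2 : ∫⁻ z, F z ^ q = ∫⁻ x, ‖φ x‖ₑ ^ q := by
    rw [← int2 _ (by fun_prop)]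
  have e3 : ∫⁻ z, H z ^ (q / 2) = ENNReal.ofReal ((2 * Real.pi) ^ 3) * ∫⁻ η, ‖fd g η‖ₑ ^ q := by
    have hm1 : Measurable fun η : EuclideanSpace ℝ (Fin 3) => ‖fd g (-η)‖ₑ ^ q :=
      ((hfdm.comp measurable_neg).enorm).pow_const q
    have a1 := Pool.Agent.N248.SD.scale (N := 3) (fun η => ‖fd g (-η)‖ₑ ^ q) hm1 (2 * Real.pi)
      (by positivity)
    have a2 : ∫⁻ η : EuclideanSpace ℝ (Fin 3), ‖fd g (-η)‖ₑ ^ q = ∫⁻ η, ‖fd g η‖ₑ ^ q :=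
      lintegral_neg_eq_self (fun η => ‖fd g η‖ₑ ^ q)
    rw [a2] at a1
    have hm2 : Measurable fun v : EuclideanSpace ℝ (Fin 3) =>
        ‖fd g (-((2 * Real.pi)⁻¹ • v))‖ₑ ^ q := ((hfdm.comp hsm).enorm).pow_const q
    rw [← a1, ← int3 _ hm2]
    refine lintegral_congr fun z => ?_
    simp only [hH, Function.comp]
    rw [← ENNReal.rpow_natCast, ← ENNReal.rpow_mul]
    congr 1
    push_cast
    ring
  rw [e1]
  refine (hbil F H hFm hHm hsF).trans ?_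
  rw [e2, e3]
  have h4 := hy q (by linarith) g hg hgf h1 h2 hp
  calc C * ((∫⁻ x, ‖φ x‖ₑ ^ q) ^ (2 / q) *
        (ENNReal.ofReal ((2 * Real.pi) ^ 3) * ∫⁻ η, ‖fd g η‖ₑ ^ q) ^ (2 / q))
      ≤ C * ((∫⁻ x, ‖φ x‖ₑ ^ q) ^ (2 / q) *
        (ENNReal.ofReal ((2 * Real.pi) ^ 3) * (ENNReal.ofReal (CH q) *
          (∫⁻ x, g x ^ (q / (q - 1))) ^ (q - 1))) ^ (2 / q)) := by gcongr
    _ = _ := by
      rw [← mul_assoc (ENNReal.ofReal ((2 * Real.pi) ^ 3)),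
        ENNReal.mul_rpow_of_nonneg _ _ (by positivity : (0 : ℝ) ≤ 2 / q),
        ← ENNReal.rpow_mul _ (q - 1)]
      have : (q - 1) * (2 / q) = 2 * (q - 1) / q := by ring
      rw [this]
      ring

/-- the convolution inequality for nice functions -/
theorem nice (q : ℝ) (hq : 3 < q) : ∃ C : ℝ≥0∞, C ≠ ∞ ∧ ∀ (φ : EuclideanSpace ℝ (Fin 2) → ℂ)
    (g h : EuclideanSpace ℝ (Fin 3) → ℝ≥0∞), Measurable φ → Integrable φ →
    Measurable (W volume p3 φ) →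
    (∀ x, (1 < |x 0| ∨ 1 < |x 1|) → φ x = 0) → Measurable g → (∀ x, g x ≠ ∞) →
    ∫⁻ x, g x ≠ ∞ → ∫⁻ x, g x ^ 2 ≠ ∞ → ∫⁻ x, g x ^ (q / (q - 1)) ≠ ∞ →
    Measurable h → (∀ x, h x ≠ ∞) →
    ∫⁻ x, h x ≠ ∞ → ∫⁻ x, h x ^ 2 ≠ ∞ → ∫⁻ x, h x ^ (q / (q - 1)) ≠ ∞ →
    ∫⁻ y, ∫⁻ w, g y * h w * ‖W volume p3 φ (w - y)‖ₑ ^ 2 ≤
      C * ((∫⁻ x, ‖φ x‖ₑ ^ q) ^ (2 / q) * ((∫⁻ x, g x ^ (q / (q - 1))) ^ ((q - 1) / q) *
        (∫⁻ x, h x ^ (q / (q - 1))) ^ ((q - 1) / q))) := by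
  have hq0 : 0 < q := by linarith
  have hq1 : 0 < q - 1 := by linarith
  obtain ⟨C, hC, hst⟩ := step q hq
  refine ⟨C, hC, ?_⟩
  intro φ g h hφ hφi hW hs hg g1 g2 g3 g4 hh h1 h2 h3 h4
  refine (conv2 volume g h hg hh g2 h2 p3 p3_meas φ hφ hφi hW).trans ?_
  have a1 := hst φ g hφ hs hg g1 g2 g3 g4
  have a2 := hst φ h hφ hs hh h1 h2 h3 h4
  rw [Measure.volume_eq_prod] at a1 a2
  refine (mul_le_mul' (ENNReal.rpow_le_rpow a1 (by norm_num : (0 : ℝ) ≤ 1 / 2))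
    (ENNReal.rpow_le_rpow a2 (by norm_num : (0 : ℝ) ≤ 1 / 2))).trans (le_of_eq ?_)
  have hsq : ∀ t : ℝ≥0∞, t ^ (1 / 2 : ℝ) * t ^ (1 / 2 : ℝ) = t := by
    intro t
    rw [← ENNReal.rpow_add_of_nonneg _ _ (by norm_num) (by norm_num)]
    have : (1 / 2 + 1 / 2 : ℝ) = 1 := by norm_num
    rw [this, ENNReal.rpow_one]
  have e5 : ∀ t : ℝ≥0∞, (t ^ (2 * (q - 1) / q)) ^ (1 / 2 : ℝ) = t ^ ((q - 1) / q) := by
    intro t
    rw [← ENNReal.rpow_mul]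
    congr 1
    ring
  rw [ENNReal.mul_rpow_of_nonneg _ _ (by norm_num : (0 : ℝ) ≤ 1 / 2),
    ENNReal.mul_rpow_of_nonneg _ _ (by norm_num : (0 : ℝ) ≤ 1 / 2),
    ENNReal.mul_rpow_of_nonneg _ _ (by norm_num : (0 : ℝ) ≤ 1 / 2),
    ENNReal.mul_rpow_of_nonneg _ _ (by norm_num : (0 : ℝ) ≤ 1 / 2), e5, e5]
  set P := (∫⁻ x, ‖φ x‖ₑ ^ q) ^ (2 / q)
  calc _ = (C ^ (1 / 2 : ℝ) * C ^ (1 / 2 : ℝ)) * ((P ^ (1 / 2 : ℝ) * P ^ (1 / 2 : ℝ)) *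
        ((∫⁻ x, g x ^ (q / (q - 1))) ^ ((q - 1) / q) *
        (∫⁻ x, h x ^ (q / (q - 1))) ^ ((q - 1) / q))) := by ring
    _ = _ := by rw [hsq, hsq]

end Pool.Agent.N248.LQ
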