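import Mathlib
import Pool.Agent.N248.LQ.E
set_option autoImplicit false

/-! From nice functions to all functions; sets. -/

namespace Pool.Agent.N248.LQ

open MeasureTheory Set Metric Complex
open scoped ENNReal RealInnerProductSpace ComplexConjugate
open Pool.Agent.N248.SD (W rep rep_meas rep_int rep_eq rep_le)

variable {N : ℕ}

/-- truncation -/
noncomputable def tr (g : EuclideanSpace ℝ (Fin N) → ℝ≥0∞) (n : ℕ) :
    EuclideanSpace ℝ (Fin N) → ℝ≥0∞ := (closedBall 0 (n : ℝ)).indicator fun x => min (g x) n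

theorem tr_meas (g : EuclideanSpace ℝ (Fin N) → ℝ≥0∞) (hg : Measurable g) (n : ℕ) :
    Measurable (tr g n) := (hg.min measurable_const).indicator measurableSet_closedBall

theorem tr_le (g : EuclideanSpace ℝ (Fin N) → ℝ≥0∞) (n : ℕ) (x : EuclideanSpace ℝ (Fin N)) :
    tr g n x ≤ g x := by
  unfold tr
  by_cases hx : x ∈ closedBall (0 : EuclideanSpace ℝ (Fin N)) (n : ℝ)
  · rw [indicator_of_mem hx]; exact min_le_left _ _
  · rw [indicator_of_notMem hx]; exact zero_le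

theorem tr_ne (g : EuclideanSpace ℝ (Fin N) → ℝ≥0∞) (n : ℕ) (x : EuclideanSpace ℝ (Fin N)) :
    tr g n x ≠ ∞ := by
  unfold tr
  by_cases hx : x ∈ closedBall (0 : EuclideanSpace ℝ (Fin N)) (n : ℝ)
  · rw [indicator_of_mem hx]
    exact ne_top_of_le_ne_top (ENNReal.natCast_ne_top n) (min_le_right _ _)
  · rw [indicator_of_notMem hx]; simp

theorem tr_pow (g : EuclideanSpace ℝ (Fin N) → ℝ≥0∞) (n : ℕ) (s : ℝ) (hs : 0 < s) :
    ∫⁻ x, tr g n x ^ s ≠ ∞ := by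
  have h1 : ∀ x, tr g n x ^ s ≤ (closedBall (0 : EuclideanSpace ℝ (Fin N)) (n : ℝ)).indicator
      (fun _ => (n : ℝ≥0∞) ^ s) x := by
    intro x
    unfold tr
    by_cases hx : x ∈ closedBall (0 : EuclideanSpace ℝ (Fin N)) (n : ℝ)
    · rw [indicator_of_mem hx, indicator_of_mem hx]
      exact ENNReal.rpow_le_rpow (min_le_right _ _) hs.le
    · rw [indicator_of_notMem hx, indicator_of_notMem hx, ENNReal.zero_rpow_of_pos hs]
  refine ne_top_of_le_ne_top ?_ (lintegral_mono h1)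
  rw [lintegral_indicator_const measurableSet_closedBall]
  exact ENNReal.mul_ne_top (ENNReal.rpow_ne_top_of_nonneg hs.le (ENNReal.natCast_ne_top n))
    measure_closedBall_lt_top.ne

theorem tr_event (g : EuclideanSpace ℝ (Fin N) → ℝ≥0∞) (x : EuclideanSpace ℝ (Fin N))
    (hx : g x ≠ ∞) : ∀ᶠ n : ℕ in Filter.atTop, tr g n x = g x := by
  obtain ⟨a, ha⟩ := ENNReal.exists_nat_gt hx
  obtain ⟨b, hb⟩ := exists_nat_ge ‖x‖
  filter_upwards [Filter.eventually_ge_atTop (max a b)] with n hn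
  have h1 : x ∈ closedBall (0 : EuclideanSpace ℝ (Fin N)) (n : ℝ) := by
    rw [mem_closedBall_zero_iff]
    exact hb.trans (by exact_mod_cast (le_max_right a b).trans hn)
  unfold tr
  rw [indicator_of_mem h1, min_eq_left]
  exact ha.le.trans (by exact_mod_cast (le_max_left a b).trans hn)

theorem ae_fin (g : EuclideanSpace ℝ (Fin N) → ℝ≥0∞) (hg : Measurable g) (s : ℝ) (hs : 0 < s)
    (h : ∫⁻ x, g x ^ s ≠ ∞) : ∀ᵐ x, g x ≠ ∞ := by
  filter_upwards [ae_lt_top (hg.pow_const s) h] with x hx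
  intro h'
  rw [h', ENNReal.top_rpow_of_pos hs] at hx
  exact lt_irrefl _ hx

theorem ae_zero (g : EuclideanSpace ℝ (Fin N) → ℝ≥0∞) (hg : Measurable g) (s : ℝ) (hs : 0 < s)
    (h : ∫⁻ x, g x ^ s = 0) : ∀ᵐ x, g x = 0 := by
  have := (lintegral_eq_zero_iff (hg.pow_const s)).1 h
  filter_upwards [this] with x hx
  simp only [Pi.zero_apply] at hx
  rw [ENNReal.rpow_eq_zero_iff] at hx
  rcases hx with hx | hx
  · exact hx.1
  · linarith [hx.2]

/-- the passage to all functions -/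
theorem limit (K : EuclideanSpace ℝ (Fin N) → ℝ≥0∞) (hK : Measurable K) (s t : ℝ) (hs : 0 < s)
    (ht : 0 < t) (P : ℝ≥0∞) (hP : P ≠ 0)
    (hn : ∀ g h : EuclideanSpace ℝ (Fin N) → ℝ≥0∞, Measurable g → (∀ x, g x ≠ ∞) →
      ∫⁻ x, g x ≠ ∞ → ∫⁻ x, g x ^ 2 ≠ ∞ → ∫⁻ x, g x ^ s ≠ ∞ → Measurable h → (∀ x, h x ≠ ∞) →
      ∫⁻ x, h x ≠ ∞ → ∫⁻ x, h x ^ 2 ≠ ∞ → ∫⁻ x, h x ^ s ≠ ∞ →
      ∫⁻ y, ∫⁻ w, g y * h w * K (w - y) ≤ P * ((∫⁻ x, g x ^ s) ^ t * (∫⁻ x, h x ^ s) ^ t))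
    (g h : EuclideanSpace ℝ (Fin N) → ℝ≥0∞) (hg : Measurable g) (hh : Measurable h) :
    ∫⁻ y, ∫⁻ w, g y * h w * K (w - y) ≤ P * ((∫⁻ x, g x ^ s) ^ t * (∫⁻ x, h x ^ s) ^ t) := by
  have hm : ∀ g h : EuclideanSpace ℝ (Fin N) → ℝ≥0∞, Measurable g → Measurable h →
      Measurable fun ω : EuclideanSpace ℝ (Fin N) × EuclideanSpace ℝ (Fin N) =>
        g ω.1 * h ω.2 * K (ω.2 - ω.1) := fun g h hg hh =>
    ((hg.comp measurable_fst).mul (hh.comp measurable_snd)).mul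
      (hK.comp (measurable_snd.sub measurable_fst))
  have hprod : ∀ g h : EuclideanSpace ℝ (Fin N) → ℝ≥0∞, Measurable g → Measurable h →
      ∫⁻ y, ∫⁻ w, g y * h w * K (w - y) =
      ∫⁻ ω : EuclideanSpace ℝ (Fin N) × EuclideanSpace ℝ (Fin N),
        g ω.1 * h ω.2 * K (ω.2 - ω.1) := by
    intro g h hg hh
    rw [Measure.volume_eq_prod, lintegral_prod _ (hm g h hg hh).aemeasurable]
  have hzero : (∀ᵐ x, g x = 0) ∨ (∀ᵐ x, h x = 0) → ∫⁻ y, ∫⁻ w, g y * h w * K (w - y) = 0 := by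
    intro h0
    rcases h0 with h0 | h0
    · rw [lintegral_eq_zero_iff (by
        exact (hm g h hg hh).lintegral_prod_right')]
      filter_upwards [h0] with y hy
      simp [hy]
    · have : ∀ y, ∫⁻ w, g y * h w * K (w - y) = 0 := by
        intro y
        rw [lintegral_eq_zero_iff (by fun_prop)]
        filter_upwards [h0] with w hw
        simp [hw]
      simp_rw [this]
      simp
  by_cases hA0 : ∫⁻ x, g x ^ s = 0
  · rw [hzero (Or.inl (ae_zero g hg s hs hA0))]; exact zero_le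
  by_cases hB0 : ∫⁻ x, h x ^ s = 0
  · rw [hzero (Or.inr (ae_zero h hh s hs hB0))]; exact zero_le
  have hpos : ∀ a : ℝ≥0∞, a ≠ 0 → a ^ t ≠ 0 := by
    intro a ha h'
    rw [ENNReal.rpow_eq_zero_iff] at h'
    rcases h' with h' | h'
    · exact ha h'.1
    · linarith [h'.2]
  by_cases hA : ∫⁻ x, g x ^ s = ∞
  · rw [hA, ENNReal.top_rpow_of_pos ht, ENNReal.top_mul (hpos _ hB0), ENNReal.mul_top hP]
    exact le_top
  by_cases hB : ∫⁻ x, h x ^ s = ∞
  · rw [hB, ENNReal.top_rpow_of_pos ht, ENNReal.mul_top (hpos _ hA0), ENNReal.mul_top hP]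
    exact le_top
  rw [hprod g h hg hh]
  have hae : ∀ᵐ ω : EuclideanSpace ℝ (Fin N) × EuclideanSpace ℝ (Fin N),
      g ω.1 ≠ ∞ ∧ h ω.2 ≠ ∞ := by
    have a1 : ∀ᵐ ω : EuclideanSpace ℝ (Fin N) × EuclideanSpace ℝ (Fin N) ∂(volume.prod volume),
        g ω.1 ≠ ∞ := Measure.quasiMeasurePreserving_fst.ae (ae_fin g hg s hs hA)
    have a2 : ∀ᵐ ω : EuclideanSpace ℝ (Fin N) × EuclideanSpace ℝ (Fin N) ∂(volume.prod volume),
        h ω.2 ≠ ∞ := Measure.quasiMeasurePreserving_snd.ae (ae_fin h hh s hs hB)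
    rw [Measure.volume_eq_prod]
    filter_upwards [a1, a2] with ω h1 h2 using ⟨h1, h2⟩
  have h5 : ∫⁻ ω : EuclideanSpace ℝ (Fin N) × EuclideanSpace ℝ (Fin N),
        g ω.1 * h ω.2 * K (ω.2 - ω.1) =
      ∫⁻ ω : EuclideanSpace ℝ (Fin N) × EuclideanSpace ℝ (Fin N),
        Filter.liminf (fun n : ℕ => tr g n ω.1 * tr h n ω.2 * K (ω.2 - ω.1)) Filter.atTop := by
    refine lintegral_congr_ae ?_
    filter_upwards [hae] with ω hω
    have ht : Filter.Tendsto (fun n : ℕ => tr g n ω.1 * tr h n ω.2 * K (ω.2 - ω.1)) Filter.atTop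
        (nhds (g ω.1 * h ω.2 * K (ω.2 - ω.1))) := by
      refine tendsto_const_nhds.congr' ?_
      filter_upwards [tr_event g ω.1 hω.1, tr_event h ω.2 hω.2] with n h1 h2
      rw [h1, h2]
    exact ht.liminf_eq.symm
  rw [h5]
  refine (lintegral_liminf_le fun n => hm _ _ (tr_meas g hg n) (tr_meas h hh n)).trans ?_
  refine Filter.liminf_le_of_le (by isBoundedDefault) ?_
  intro c hc
  obtain ⟨n, hn'⟩ := hc.exists
  refine hn'.trans ?_
  rw [← hprod _ _ (tr_meas g hg n) (tr_meas h hh n)]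
  have e2 : ∀ g : EuclideanSpace ℝ (Fin N) → ℝ≥0∞, ∫⁻ x, tr g n x ^ 2 ≠ ∞ := by
    intro g
    have := tr_pow g n 2 (by norm_num)
    simpa using this
  have e1 : ∀ g : EuclideanSpace ℝ (Fin N) → ℝ≥0∞, ∫⁻ x, tr g n x ≠ ∞ := by
    intro g
    have := tr_pow g n 1 (by norm_num)
    simpa using this
  refine (hn _ _ (tr_meas g hg n) (tr_ne g n) (e1 g) (e2 g) (tr_pow g n s hs) (tr_meas h hh n)
    (tr_ne h n) (e1 h) (e2 h) (tr_pow h n s hs)).trans ?_
  refine mul_le_mul' le_rfl (mul_le_mul' (ENNReal.rpow_le_rpow ?_ ht.le)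
    (ENNReal.rpow_le_rpow ?_ ht.le))
  · exact lintegral_mono fun x => ENNReal.rpow_le_rpow (tr_le g n x) hs.le
  · exact lintegral_mono fun x => ENNReal.rpow_le_rpow (tr_le h n x) hs.le

theorem W_meas {X : Type*} [MeasurableSpace X] (μ : Measure X) [SFinite μ]
    (p : X → EuclideanSpace ℝ (Fin N)) (hp : Measurable p) (φ : X → ℂ) (hφ : Measurable φ) :
    Measurable (W μ p φ) := by
  have hm : StronglyMeasurable fun z : EuclideanSpace ℝ (Fin N) × X =>
      Pool.Agent.R412.RT.ee ⟪p z.2, z.1⟫ * φ z.2 := by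
    refine (Measurable.mul ?_ (hφ.comp measurable_snd)).stronglyMeasurable
    exact Pool.Agent.R412.RT.ee_meas.comp
      (Measurable.inner (hp.comp measurable_snd) measurable_fst)
  exact (hm.integral_prod_right' (ν := μ)).measurable

/-- the convolution inequality for all functions -/
theorem full (q : ℝ) (hq : 3 < q) : ∃ C : ℝ≥0∞, C ≠ ∞ ∧ C ≠ 0 ∧
    ∀ (φ : EuclideanSpace ℝ (Fin 2) → ℂ)
    (g h : EuclideanSpace ℝ (Fin 3) → ℝ≥0∞), Measurable φ → Integrable φ →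
    (∀ x, (1 < |x 0| ∨ 1 < |x 1|) → φ x = 0) → Measurable g → Measurable h →
    ∫⁻ y, ∫⁻ w, g y * h w * ‖W volume p3 φ (w - y)‖ₑ ^ 2 ≤
      C * (∫⁻ x, ‖φ x‖ₑ ^ q) ^ (2 / q) * ((∫⁻ x, g x ^ (q / (q - 1))) ^ ((q - 1) / q) *
        (∫⁻ x, h x ^ (q / (q - 1))) ^ ((q - 1) / q)) := by
  have hq0 : 0 < q := by linarith
  have hq1 : 0 < q - 1 := by linarith
  obtain ⟨C, hC, hni⟩ := nice q hq
  refine ⟨C + 1, ENNReal.add_ne_top.2 ⟨hC, ENNReal.one_ne_top⟩, by simp, ?_⟩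
  intro φ g h hφ hφi hs hg hh
  have hWm : Measurable (W volume p3 φ) := W_meas volume p3 p3_meas φ hφ
  by_cases h0 : ∫⁻ x, ‖φ x‖ₑ ^ q = 0
  · have hz : ∀ᵐ x, φ x = 0 := by
      have := (lintegral_eq_zero_iff (hφ.enorm.pow_const q)).1 h0
      filter_upwards [this] with x hx
      simp only [Pi.zero_apply] at hx
      rw [ENNReal.rpow_eq_zero_iff] at hx
      rcases hx with hx | hx
      · simpa using hx.1
      · linarith [hx.2]
    have hW0 : ∀ u, W volume p3 φ u = 0 := by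
      intro u
      unfold W
      rw [integral_eq_zero_of_ae]
      filter_upwards [hz] with x hx
      simp [hx]
    simp [hW0]
  · refine limit (fun u => ‖W volume p3 φ u‖ₑ ^ 2) (hWm.enorm.pow_const 2) (q / (q - 1))
      ((q - 1) / q) (by positivity) (by positivity) ((C + 1) * (∫⁻ x, ‖φ x‖ₑ ^ q) ^ (2 / q)) ?_ ?_
      g h hg hh
    · refine mul_ne_zero (by simp) ?_
      intro h'
      rw [ENNReal.rpow_eq_zero_iff] at h'
      rcases h' with h' | h'
      · exact h0 h'.1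
      · have : 0 < 2 / q := by positivity
        linarith [h'.2]
    · intro g h hg g1 g2 g3 g4 hh h1 h2 h3 h4
      refine (hni φ g h hφ hφi hWm hs hg g1 g2 g3 g4 hh h1 h2 h3 h4).trans ?_
      rw [mul_assoc]
      exact mul_le_mul' le_self_add le_rfl

end Pool.Agent.N248.LQ
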