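import Mathlib
import Pool.Agent.N248.LQ.F
set_option autoImplicit false

/-! Sets: small sumsets and additive energy from a convolution inequality. -/

namespace Pool.Agent.N248.LQ

open MeasureTheory Set Metric Complex
open scoped ENNReal NNReal RealInnerProductSpace ComplexConjugate Pointwise
open Pool.Agent.N248.SD (rep rep_meas rep_int rep_eq rep_le elow)

variable {N : ℕ}

theorem ind_pow (A : Set (EuclideanSpace ℝ (Fin N))) (hA : MeasurableSet A) (s : ℝ) (hs : 0 < s) :
    ∫⁻ x, A.indicator (1 : EuclideanSpace ℝ (Fin N) → ℝ≥0∞) x ^ s = volume A := by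
  rw [← lintegral_indicator_one hA]
  refine lintegral_congr fun x => ?_
  by_cases hx : x ∈ A
  · rw [indicator_of_mem hx]; simp
  · rw [indicator_of_notMem hx, ENNReal.zero_rpow_of_pos hs]

/-- small sumsets -/
theorem sumset (K : EuclideanSpace ℝ (Fin N) → ℝ≥0∞) (hK : Measurable K) (q : ℝ) (hq : 1 < q)
    (P : ℝ≥0∞) (hP : P ≠ 0)
    (hn : ∀ g h : EuclideanSpace ℝ (Fin N) → ℝ≥0∞, Measurable g → Measurable h →
      ∫⁻ y, ∫⁻ w, g y * h w * K (w - y) ≤ P * ((∫⁻ x, g x ^ (q / (q - 1))) ^ ((q - 1) / q) *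
        (∫⁻ x, h x ^ (q / (q - 1))) ^ ((q - 1) / q)))
    (A B : Set (EuclideanSpace ℝ (Fin N))) (hA : MeasurableSet A) (hB : MeasurableSet B) :
    volume A ^ (1 / q) * ∫⁻ x in B, K x ≤ P * volume (A + B) ^ (1 - 1 / q) := by
  have hq0 : 0 < q := by linarith
  have hq1 : 0 < q - 1 := by linarith
  have hs : 0 < q / (q - 1) := by positivity
  have h1q : 0 < 1 - 1 / q := by
    have : 1 / q < 1 := by rw [div_lt_one hq0]; exact hq
    linarith
  rcases B.eq_empty_or_nonempty with hBe | ⟨b₀, hb₀⟩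
  · rw [hBe]; simp
  rcases eq_or_ne (volume (A + B)) ∞ with hi | hi
  · rw [hi, ENNReal.top_rpow_of_pos h1q, ENNReal.mul_top hP]
    exact le_top
  have hAi : volume A ≠ ∞ := by
    refine ne_top_of_le_ne_top hi ?_
    have h1 : A = (fun x => x + b₀) ⁻¹' ((fun x => x + b₀) '' A) :=
      (preimage_image_eq A (add_left_injective b₀)).symm
    have h2 : volume A = volume ((fun x => x + b₀) '' A) := by
      conv_lhs => rw [h1]
      exact measure_preimage_add_right _ _ _
    rw [h2]
    refine measure_mono ?_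
    rintro _ ⟨a, ha, rfl⟩
    exact add_mem_add ha hb₀
  rcases eq_or_ne (volume A) 0 with hA0 | hA0
  · rw [hA0, ENNReal.zero_rpow_of_pos (by positivity), zero_mul]
    exact zero_le
  set S : Set (EuclideanSpace ℝ (Fin N)) := toMeasurable volume (A + B) with hS
  have hSv : volume S = volume (A + B) := measure_toMeasurable _
  have hSm : MeasurableSet S := measurableSet_toMeasurable _ _
  have h1 := hn (A.indicator 1) (S.indicator 1) (measurable_one.indicator hA)
    (measurable_one.indicator hSm)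
  rw [ind_pow A hA _ hs, ind_pow S hSm _ hs, hSv] at h1
  have h2 : volume A * ∫⁻ x in B, K x ≤ ∫⁻ y, ∫⁻ w,
      A.indicator (1 : EuclideanSpace ℝ (Fin N) → ℝ≥0∞) y *
        S.indicator (1 : EuclideanSpace ℝ (Fin N) → ℝ≥0∞) w * K (w - y) := by
    rw [← lintegral_indicator_one hA, ← lintegral_mul_const _ (measurable_one.indicator hA)]
    refine lintegral_mono fun y => ?_
    by_cases hy : y ∈ A
    · rw [indicator_of_mem hy, Pi.one_apply, one_mul]
      have e1 : ∫⁻ w, 1 * S.indicator (1 : EuclideanSpace ℝ (Fin N) → ℝ≥0∞) w * K (w - y) =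
          ∫⁻ v, 1 * S.indicator (1 : EuclideanSpace ℝ (Fin N) → ℝ≥0∞) (y + v) * K v := by
        rw [← lintegral_add_left_eq_self _ y]
        simp
      rw [e1, ← lintegral_indicator hB]
      refine lintegral_mono fun v => ?_
      by_cases hv : v ∈ B
      · rw [indicator_of_mem hv, indicator_of_mem (subset_toMeasurable _ _ (add_mem_add hy hv))]
        simp
      · rw [indicator_of_notMem hv]; exact zero_le
    · rw [indicator_of_notMem hy]; simp
  have h3 := h2.trans h1
  have hp0 : volume A ^ (1 - 1 / q) ≠ 0 := by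
    rw [Ne, ENNReal.rpow_eq_zero_iff]
    push Not
    exact ⟨fun h => absurd h hA0, fun h => absurd h hAi⟩
  have hpt : volume A ^ (1 - 1 / q) ≠ ∞ := ENNReal.rpow_ne_top_of_nonneg h1q.le hAi
  rw [← ENNReal.mul_le_mul_iff_left hp0 hpt]
  have e1 : (q - 1) / q = 1 - 1 / q := by field_simp
  rw [e1] at h3
  have e2 : volume A ^ (1 / q) * volume A ^ (1 - 1 / q) = volume A := by
    rw [← ENNReal.rpow_add _ _ hA0 hAi]
    have : 1 / q + (1 - 1 / q) = 1 := by ring
    rw [this, ENNReal.rpow_one]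
  calc volume A ^ (1 / q) * (∫⁻ x in B, K x) * volume A ^ (1 - 1 / q)
      = (volume A ^ (1 / q) * volume A ^ (1 - 1 / q)) * ∫⁻ x in B, K x := by ring
    _ = volume A * ∫⁻ x in B, K x := by rw [e2]
    _ ≤ _ := h3
    _ = _ := by ring

/-- the norm of the representation function -/
theorem rep_norm (q : ℝ) (hq : 2 < q) (A B : Set (EuclideanSpace ℝ (Fin N)))
    (hA : MeasurableSet A) (hB : MeasurableSet B) :
    (∫⁻ x, rep A B x ^ (q / (q - 1))) ^ ((q - 1) / q) ≤
      (volume A * volume B) ^ (1 - 2 / q) * (∫⁻ x, rep A B x ^ 2) ^ (1 / q) := by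
  have hq0 : 0 < q := by linarith
  have hq1 : 0 < q - 1 := by linarith
  have hq2 : 0 < q - 2 := by linarith
  have hr := rep_meas A B hA hB
  have hH := ENNReal.lintegral_mul_le_Lp_mul_Lq (volume : Measure (EuclideanSpace ℝ (Fin N)))
    (p := (q - 1) / (q - 2)) (q := q - 1)
    (by
      rw [Real.holderConjugate_iff]
      refine ⟨?_, ?_⟩
      · rw [lt_div_iff₀ hq2]; linarith
      · field_simp
        ring)
    (f := fun x => rep A B x ^ ((q - 2) / (q - 1))) (g := fun x => rep A B x ^ (2 / (q - 1)))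
    (hr.pow_const _).aemeasurable (hr.pow_const _).aemeasurable
  have e0 : ∀ x, ((fun x => rep A B x ^ ((q - 2) / (q - 1))) *
      fun x => rep A B x ^ (2 / (q - 1))) x = rep A B x ^ (q / (q - 1)) := by
    intro x
    simp only [Pi.mul_apply]
    rw [← ENNReal.rpow_add_of_nonneg _ _ (by positivity) (by positivity)]
    congr 1
    field_simp
    ring
  have e1 : ∀ x, (rep A B x ^ ((q - 2) / (q - 1))) ^ ((q - 1) / (q - 2)) = rep A B x := by
    intro x
    rw [← ENNReal.rpow_mul]
    have : (q - 2) / (q - 1) * ((q - 1) / (q - 2)) = 1 := by field_simp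
    rw [this, ENNReal.rpow_one]
  have e2 : ∀ x, (rep A B x ^ (2 / (q - 1))) ^ (q - 1) = rep A B x ^ 2 := by
    intro x
    rw [← ENNReal.rpow_mul]
    have : 2 / (q - 1) * (q - 1) = (2 : ℕ) := by field_simp; norm_num
    rw [this, ENNReal.rpow_natCast]
  simp_rw [e0, e1, e2] at hH
  rw [rep_int A B hA hB] at hH
  refine (ENNReal.rpow_le_rpow hH (by positivity)).trans (le_of_eq ?_)
  rw [ENNReal.mul_rpow_of_nonneg _ _ (by positivity), ← ENNReal.rpow_mul, ← ENNReal.rpow_mul]
  congr 2
  · field_simp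
  · field_simp

/-- additive energy -/
theorem energyQ (K : EuclideanSpace ℝ (Fin N) → ℝ≥0∞) (hK : Measurable K) (q : ℝ) (hq : 2 < q)
    (P : ℝ≥0∞) (hP : P ≠ 0)
    (hn : ∀ g h : EuclideanSpace ℝ (Fin N) → ℝ≥0∞, Measurable g → Measurable h →
      ∫⁻ y, ∫⁻ w, g y * h w * K (w - y) ≤ P * ((∫⁻ x, g x ^ (q / (q - 1))) ^ ((q - 1) / q) *
        (∫⁻ x, h x ^ (q / (q - 1))) ^ ((q - 1) / q)))
    (A B : Set (EuclideanSpace ℝ (Fin N))) (hA : MeasurableSet A) (hB : MeasurableSet B)
    (l : ℝ≥0∞) (hl : ∀ x ∈ B, l ≤ K x) :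
    l * (∫⁻ x, rep A B x ^ 2) ^ (1 - 1 / q) ≤
      P * (volume A ^ (2 - 3 / q) * volume B ^ (1 - 2 / q)) := by
  have hq0 : 0 < q := by linarith
  have hq1 : 0 < q - 1 := by linarith
  have hs : 0 < q / (q - 1) := by positivity
  have h1q : 0 < 1 - 1 / q := by
    have : 1 / q < 1 := by rw [div_lt_one hq0]; linarith
    linarith
  have h2q' : 0 < 1 - 2 / q := by
    have : 2 / q < 1 := by rw [div_lt_one hq0]; linarith
    linarith
  have h2q : 0 ≤ 1 - 2 / q := h2q'.le
  have h3q : 0 < 2 - 3 / q := by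
    have : 3 / q < 2 := by rw [div_lt_iff₀ hq0]; linarith
    linarith
  have hrm := rep_meas A B hA hB
  set e : ℝ≥0∞ := ∫⁻ x, rep A B x ^ 2 with he
  have hnull : volume A = 0 ∨ volume B = 0 → e = 0 := by
    intro h
    have h1 : ∫⁻ w, rep A B w = 0 := by
      rw [rep_int A B hA hB]
      rcases h with h | h <;> simp [h]
    have h2 := (lintegral_eq_zero_iff hrm).1 h1
    rw [he, lintegral_eq_zero_iff (hrm.pow_const 2)]
    filter_upwards [h2] with w hw
    have : rep A B w = 0 := hw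
    simp [this]
  rcases eq_or_ne e 0 with he0 | he0
  · rw [he0, ENNReal.zero_rpow_of_pos h1q, mul_zero]; exact zero_le
  have hA0 : volume A ≠ 0 := fun h => he0 (hnull (Or.inl h))
  have hB0 : volume B ≠ 0 := fun h => he0 (hnull (Or.inr h))
  have hpos : ∀ (t : ℝ≥0∞) (s : ℝ), t ≠ 0 → 0 ≤ s → t ^ s ≠ 0 := by
    intro t s ht hs h
    rw [ENNReal.rpow_eq_zero_iff] at h
    rcases h with h | h
    · exact ht h.1
    · linarith [h.2]
  rcases eq_or_ne (volume A) ∞ with hAf | hAf
  · rw [hAf, ENNReal.top_rpow_of_pos h3q, ENNReal.top_mul (hpos _ _ hB0 h2q),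
      ENNReal.mul_top hP]
    exact le_top
  have h1 := hn (A.indicator 1) (rep A B) (measurable_one.indicator hA) hrm
  rw [ind_pow A hA _ hs] at h1
  have h2 := (elow A B hA hB K hK l hl).trans h1
  rw [← he] at h2
  have h3 := rep_norm q hq A B hA hB
  rw [← he] at h3
  have e1 : (q - 1) / q = 1 - 1 / q := by field_simp
  have h4 : l * e ≤ P * (volume A ^ (1 - 1 / q) *
      ((volume A * volume B) ^ (1 - 2 / q) * e ^ (1 / q))) := by
    refine h2.trans (mul_le_mul' le_rfl ?_)
    rw [e1] at h3 ⊢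
    exact mul_le_mul' le_rfl h3
  rcases eq_or_ne e ∞ with hef | hef
  · -- then |B| is infinite
    have hBf : volume B = ∞ := by
      by_contra hBf
      apply absurd hef
      have : e ≤ volume A * (volume A * volume B) := by
        rw [he]
        calc ∫⁻ w, rep A B w ^ 2 ≤ ∫⁻ w, volume A * rep A B w := by
              refine lintegral_mono fun w => ?_
              rw [sq]
              exact mul_le_mul' (rep_le A B w) le_rfl
          _ = volume A * (volume A * volume B) := by rw [lintegral_const_mul _ hrm, rep_int A B hA hB]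
      exact ne_top_of_le_ne_top (ENNReal.mul_ne_top hAf (ENNReal.mul_ne_top hAf hBf)) this
    rw [hBf, ENNReal.top_rpow_of_pos h2q', ENNReal.mul_top (hpos _ _ hA0 h3q.le),
      ENNReal.mul_top hP]
    exact le_top
  have hX0 : e ^ (1 / q) ≠ 0 := hpos _ _ he0 (by positivity)
  have hXt : e ^ (1 / q) ≠ ∞ := ENNReal.rpow_ne_top_of_nonneg (by positivity) hef
  rw [← ENNReal.mul_le_mul_iff_left hX0 hXt]
  have e2 : e ^ (1 - 1 / q) * e ^ (1 / q) = e := by
    rw [← ENNReal.rpow_add _ _ he0 hef]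
    have : 1 - 1 / q + 1 / q = 1 := by ring
    rw [this, ENNReal.rpow_one]
  have e3 : volume A ^ (2 - 3 / q) = volume A ^ (1 - 1 / q) * volume A ^ (1 - 2 / q) := by
    rw [← ENNReal.rpow_add_of_nonneg _ _ h1q.le h2q]
    congr 1
    ring
  calc l * e ^ (1 - 1 / q) * e ^ (1 / q) = l * e := by rw [mul_assoc, e2]
    _ ≤ _ := h4
    _ = _ := by
      rw [e3, ENNReal.mul_rpow_of_nonneg _ _ h2q]
      ring

end Pool.Agent.N248.LQ
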